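import Pool.Agent.Lib.MP_d1f823_co.Data3

/-! The kernel checks for `n = 3`. -/

namespace Pool.Agent.Lib.MP_d1f823_co

def dig (m s : ℕ) : ℕ := Nat.mod (Nat.shiftRight m s) 256

def unp3 (m : ℕ) : Bool × List ℕ :=
  (Nat.beq (Nat.mod m 2) 1,
    [dig m 1, dig m 9, dig m 17, dig m 25, dig m 33, dig m 41, dig m 49])

def z3 : List (Bool × List ℕ) := z3p.map unp3

def pop : ℕ → ℕ → ℕ
  | 0, _ => 0
  | k + 1, m => Nat.add (Nat.mod m 2) (pop k (Nat.div m 2))

def ok3 (x : ℕ) : Bool := Nat.blt x 256 && Nat.beq (pop 8 x) 3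

theorem keys3 : (D3.map Prod.fst).map key = ks3 := by decide +kernel

theorem simp3 : (z3.all fun p => simpB 7 ok3 p.2) = true := by decide +kernel

theorem cyc3 : cycB z3 = true := by decide +kernel

theorem cnt3 : cnt ks3 z3 % 2 = 1 := by decide +kernel

theorem chk3 : D3.all (goodB 7 C3 ks3) = true := by decide +kernel

theorem hasCyc3 : HasCyc (Supp maskG (fun x => ok3 x = true) 7) (phiP (D3.map Prod.fst)) :=
  hasCyc_of_check 7 ok3 _ ks3 keys3 z3 simp3 cyc3 cnt3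

theorem good3 : Good maskG (fun x => x ∈ C3) (phiP (D3.map Prod.fst)) 7 :=
  good_of_check 7 C3 ks3 D3 keys3 chk3

end Pool.Agent.Lib.MP_d1f823_co
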