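import Pool.Agent.Lib.MP_d1f823_co.Check

/-! Data and kernel checks for `n = 4`: a maximal intersecting family of 26 quadruples of 9 points. -/

namespace Pool.Agent.Lib.MP_d1f823_co

def z4p : List ℕ := [
  33041544758474, 36752396502219, 41021325558986, 41028573316299, 45419388847307, 45426636604618,
  45434974356683, 45434988512458, 33041544811723, 36752396555466, 41021325612235, 41028573369546,
  33041555297482, 36752407041227, 33046655571147, 37169824175306, 37180293158091, 41021352350922,
  41029405414603, 41029425861834, 45419388933322, 45426636690635, 45419398894795, 45427451958474,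
  45427472405707, 45434974474442, 45434990203083, 45434990243018, 38822319146211, 38829566903522,
  41032632943842, 41032647099619, 45430679487715, 45430693643490, 45434996506850, 45434996534499,
  54215481935178, 54222729692491, 54231067444554, 54231081600331, 54215481955659, 54222729712970,
  54215491917130, 54223544980811, 54223565428042, 54231067496779, 54231083225418, 54231083265355,
  54226772510050, 54226786665827, 54231089529187, 54231089556834, 54239657411979, 54239671567754,
  54239657431434, 54239673160075, 54239673200010, 54239679463842, 54239679491491, 54239687852489,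
  54239687883208, 54239687895521, 54239687883287, 54239687895574]

def C4 : List ℕ := [
  0, 1, 2, 3, 4, 5, 6, 7, 8, 9, 10, 11, 12, 13, 14, 15, 16, 17, 18, 19, 20, 21, 22, 23, 24, 25,
  26, 27, 28, 29, 30, 32, 33, 34, 35, 36, 37, 38, 39, 40, 41, 42, 43, 44, 45, 46, 48, 49, 50, 51,
  52, 53, 54, 56, 57, 58, 60, 64, 65, 66, 67, 68, 69, 70, 71, 72, 73, 74, 75, 76, 77, 78, 80, 81,
  82, 83, 84, 85, 86, 88, 89, 90, 92, 96, 97, 98, 99, 100, 101, 102, 104, 105, 106, 108, 112,
  113, 114, 116, 120, 128, 129, 130, 131, 132, 133, 134, 135, 136, 137, 138, 139, 140, 141, 142,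
  144, 145, 146, 147, 148, 149, 150, 152, 153, 154, 156, 160, 161, 162, 163, 164, 165, 166, 168,
  169, 170, 172, 176, 177, 178, 180, 184, 192, 193, 194, 195, 196, 197, 198, 200, 201, 202, 204,
  208, 209, 210, 212, 216, 224, 225, 226, 228, 232, 240, 256, 257, 258, 259, 260, 261, 262, 263,
  264, 265, 266, 267, 268, 269, 270, 272, 273, 274, 275, 276, 277, 278, 280, 281, 282, 284, 288,
  289, 290, 291, 292, 293, 294, 296, 297, 298, 300, 304, 305, 306, 308, 312, 320, 321, 322, 323,
  324, 325, 326, 328, 329, 330, 332, 336, 337, 338, 340, 344, 352, 353, 354, 356, 360, 368, 384,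
  385, 386, 387, 388, 389, 390, 392, 393, 394, 396, 400, 401, 402, 404, 408, 416, 417, 418, 420,
  424, 432, 448, 449, 450, 452, 456, 464, 480]

def G4 : List ℕ := [
  101, 113, 165, 177, 197, 209, 228, 240, 267, 270, 282, 298, 330, 394]

def g4 : List ℕ := [282, 113, 330, 298, 267]

def sig4 : List ℕ := [
  39, 75, 147, 323, 45, 293, 153, 329, 401, 30, 278, 198, 170, 114, 418, 284, 204, 452, 120, 424,
  368]

def ab4 : List (ℕ × ℕ) := [
  (39, 456), (75, 420), (147, 360), (323, 172), (45, 450), (293, 202), (153, 354), (329, 166),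
  (401, 106), (30, 449), (278, 169), (198, 297), (170, 325), (114, 393), (418, 77), (284, 226),
  (204, 291), (452, 43), (120, 387), (424, 71), (368, 139)]

def opt4 : List (List ℕ) := [
  [101], [266, 270, 394], [53, 177], [209], [112, 116, 240], [344, 408, 456],
  [308, 404, 420, 432], [300, 332, 360], [60, 156, 172, 184], [338, 402, 450], [90, 154, 202],
  [294, 326, 354], [54, 150, 166, 178], [46, 78, 106], [353, 417, 449, 480],
  [105, 169, 201, 232], [281, 297, 312], [277, 325, 337, 340], [269, 393], [29, 77, 89, 92],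
  [99, 163, 195, 226], [275, 291, 306], [27, 43, 58], [263, 387], [23, 71, 83, 86], [15, 139]]

def kg4 : ℕ :=
  2187250725292278689368834850359040033530614642529498939753107806232689587657488991086755256563924992

def kF4 : ℕ :=
  11629419632729600695967884447491635957557116511693583944237123787311792411474234106710783832785500984170382508791551552415045250453602304

def dig9 (m s : ℕ) : ℕ := Nat.mod (Nat.shiftRight m s) 512

def unp4 (m : ℕ) : Bool × List ℕ :=
  (Nat.beq (Nat.mod m 2) 1, [dig9 m 1, dig9 m 10, dig9 m 19, dig9 m 28, dig9 m 37])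

def bb4 (x : ℕ) : ℕ := (ab4.lookup x).getD 0

theorem hasCyc40 : HasCyc (Supp maskG (fun x => G4.any (Nat.beq x) = true) 5) (phiP [g4]) :=
  hasCyc_of_check 5 (fun x => G4.any (Nat.beq x)) _ [kg4] (by decide +kernel) (z4p.map unp4)
    (by decide +kernel) (by decide +kernel) (by decide +kernel)

theorem good4 : Good maskG (fun x => x ∈ C4) (phiP [g4 ++ sig4]) 26 :=
  good_of_check 26 C4 [kF4] [(g4 ++ sig4, opt4)] (by decide +kernel) (by decide +kernel)

instance decAdj : DecidableRel maskG.Adj := fun x y =>
  inferInstanceAs (Decidable (x ≠ y ∧ x &&& y = 0))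

theorem cross4 : ∀ i ∈ sig4, ∀ j ∈ sig4, i ≠ j →
    ¬ maskG.Adj i j ∧ ¬ maskG.Adj i (bb4 j) ∧ ¬ maskG.Adj (bb4 i) (bb4 j) := by decide +kernel

theorem adj4 : ∀ i ∈ sig4, maskG.Adj i (bb4 i) := by decide +kernel

theorem link4 : ∀ i ∈ sig4, ∀ x ∈ G4, ¬ maskG.Adj x i ∧ ¬ maskG.Adj x (bb4 i) := by
  decide +kernel

theorem hasCyc4 : HasCyc (Supp maskG (fun x => x ∈ G4 ∨ ∃ i ∈ sig4, x = i ∨ x = bb4 i) 26)
    (phiP [g4 ++ sig4]) := by
  have hm : ∀ x, G4.any (Nat.beq x) = true → x ∈ G4 := by
    intro x hx
    obtain ⟨y, hy, e⟩ := List.any_eq_true.1 hx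
    rw [Nat.beq_eq] at e
    exact e ▸ hy
  have h := hasCyc40.susp id bb4 sig4.toFinset
    (fun i hi j hj => cross4 i (List.mem_toFinset.1 hi) j (List.mem_toFinset.1 hj))
    (fun i hi => adj4 i (List.mem_toFinset.1 hi))
    fun i hi x hx => link4 i (List.mem_toFinset.1 hi) x (hm x hx)
  have hc : sig4.toFinset.card = 21 := by decide +kernel
  have hd : Disjoint g4.toFinset sig4.toFinset := by decide +kernel
  rw [hc, Finset.image_id] at h
  refine h.mono fun s hs => ⟨⟨hs.1, fun x hx => ?_, hs.2.2⟩, ?_⟩
  · rcases hs.2.1 x hx with e | ⟨i, hi, e⟩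
    · exact Or.inl (hm x e)
    · exact Or.inr ⟨i, List.mem_toFinset.1 hi, e⟩
  · simp only [phiP, List.map_cons, List.map_nil, List.sum_cons, List.sum_nil, add_zero,
      List.toFinset_append]
    by_cases e : s = g4.toFinset ∪ sig4.toFinset
    · rw [if_pos e, if_pos (e ▸ Finset.subset_union_right), if_pos]
      rw [e, Finset.union_sdiff_cancel_right hd]
    · rw [if_neg e]
      split_ifs with e1 e2
      · exact (e (by rw [← e2, Finset.sdiff_union_of_subset e1])).elim
      · rfl
      · rfl

end Pool.Agent.Lib.MP_d1f823_co
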