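import Pool.Agent.Lib.MP_d1f823_co.Base3
import Pool.Agent.Lib.MP_d1f823_co.Base4

/-! From bit masks to finite sets, and from finite sets to the vertices of the Kneser graph. -/

namespace Pool.Agent.Lib.MP_d1f823_co

open Finset

def toSet (N m : ℕ) : Finset ℕ := (range N).filter fun i => m.testBit i = true

noncomputable def mu (N : ℕ) (x : Finset ℕ) : ℕ := key (x.image fun p => min p N).toList

theorem testBit_mu (N : ℕ) (x : Finset ℕ) (y : ℕ) :
    (mu N x).testBit y = true ↔ ∃ p ∈ x, min p N = y := by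
  rw [mu, testBit_key, Finset.mem_toList, Finset.mem_image]

theorem lt_of_testBit {m N y : ℕ} (hm : m < 2 ^ N) (h : m.testBit y = true) : y < N := by
  by_contra e
  rw [Nat.testBit_eq_false_of_lt
    (hm.trans_le (Nat.pow_le_pow_right (by omega) (not_lt.1 e)))] at h
  exact Bool.false_ne_true h

theorem mu_lt (N : ℕ) (x : Finset ℕ) : mu N x < 2 ^ (N + 1) := by
  refine Nat.lt_pow_two_of_testBit _ fun y hy => ?_
  by_contra e
  obtain ⟨p, -, e'⟩ := (testBit_mu N x y).1 (by simpa using e)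
  omega

theorem toSet_mu (N : ℕ) (x : Finset ℕ) :
    toSet (N + 1) (mu N x) = x.image fun p => min p N := by
  ext y
  rw [toSet, Finset.mem_filter, testBit_mu, Finset.mem_image, Finset.mem_range]
  refine ⟨fun h => h.2, fun h => ⟨?_, h⟩⟩
  obtain ⟨p, -, e⟩ := h
  omega

theorem mu_toSet {N m : ℕ} (hm : m < 2 ^ (N + 1)) : mu N (toSet (N + 1) m) = m := by
  refine Nat.eq_of_testBit_eq fun y => Bool.eq_iff_iff.2 ?_
  rw [testBit_mu]
  constructor
  · rintro ⟨p, hp, rfl⟩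
    rw [toSet, Finset.mem_filter, Finset.mem_range] at hp
    rw [min_eq_left (by omega)]
    exact hp.2
  · intro h
    have := lt_of_testBit hm h
    exact ⟨y, Finset.mem_filter.2 ⟨Finset.mem_range.2 this, h⟩, min_eq_left (by omega)⟩

theorem not_adj_mu (N : ℕ) (x y : Finset ℕ) (h : ¬ disjG.Adj x y) :
    ¬ maskG.Adj (mu N x) (mu N y) := by
  intro e
  refine h ⟨fun e' => e.1 (by rw [e']), Finset.disjoint_left.2 fun p h1 h2 => ?_⟩
  have := congrArg (fun m => m.testBit (min p N)) e.2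
  simp only [Nat.testBit_and, Nat.zero_testBit] at this
  rw [(testBit_mu N x _).2 ⟨p, h1, rfl⟩, (testBit_mu N y _).2 ⟨p, h2, rfl⟩] at this
  exact Bool.false_ne_true this.symm

theorem not_adj_toSet {N m m' : ℕ} (hm : m < 2 ^ N) (h : ¬ maskG.Adj m m') :
    ¬ disjG.Adj (toSet N m) (toSet N m') := by
  intro e
  refine h ⟨fun e' => e.1 (by rw [e']), Nat.eq_of_testBit_eq fun y => ?_⟩
  rw [Nat.zero_testBit, Nat.testBit_and]
  by_contra e'
  rw [Bool.not_eq_false, Bool.and_eq_true] at e'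
  have := Finset.mem_range.2 (lt_of_testBit hm e'.1)
  exact Finset.disjoint_left.1 e.2 (Finset.mem_filter.2 ⟨this, e'.1⟩)
    (Finset.mem_filter.2 ⟨this, e'.2⟩)

theorem bridge (N n q : ℕ) (C : List ℕ) (ok : ℕ → Prop) (Q : Finset ℕ → Prop)
    (φ : Finset ℕ → ZMod 2) (hG : Good maskG (fun x => x ∈ C) φ q)
    (hC : HasCyc (Supp maskG ok q) φ)
    (h1 : ∀ m < 2 ^ (N + 1), (toSet (N + 1) m).card ≤ n → m ∈ C)
    (h2 : ∀ m, ok m → m < 2 ^ (N + 1) ∧ Q (toSet (N + 1) m)) :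
    ∃ ψ, Good disjG (fun x => x.card ≤ n) ψ q ∧ HasCyc (Supp disjG Q q) ψ := by
  refine ⟨_, hG.comap disjG _ (mu N) (fun x hx => h1 _ (mu_lt N x) ?_)
    fun x y _ _ => not_adj_mu N x y, hC.map (toSet (N + 1)) _ _ fun s hs => ?_⟩
  · rw [toSet_mu]
    exact Finset.card_image_le.trans hx
  · have hinj : Set.InjOn (toSet (N + 1)) s := fun x hx y hy e => by
      rw [← mu_toSet (h2 x (hs.2.1 x hx)).1, e, mu_toSet (h2 y (hs.2.1 y hy)).1]
    have hc : (s.image (toSet (N + 1))).card = q := (Finset.card_image_of_injOn hinj).trans hs.1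
    refine ⟨hinj, ⟨hc, fun x hx => ?_, fun x hx y hy => ?_⟩, ?_⟩
    · obtain ⟨m, hm, rfl⟩ := Finset.mem_image.1 hx
      exact (h2 m (hs.2.1 m hm)).2
    · obtain ⟨m, hm, rfl⟩ := Finset.mem_image.1 hx
      obtain ⟨m', hm', rfl⟩ := Finset.mem_image.1 hy
      exact not_adj_toSet (h2 m (hs.2.1 m hm)).1 (hs.2.2 m hm m' hm')
    · rw [if_pos hc, Finset.image_image]
      congr 1
      exact (Finset.image_congr fun m hm => mu_toSet (h2 m (hs.2.1 m hm)).1).trans
        Finset.image_id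

/-- What is needed on the level of finite sets of natural numbers. -/
def Wit (n N : ℕ) : Prop :=
  ∃ q ψ, Good disjG (fun x => x.card ≤ n) ψ q ∧
    HasCyc (Supp disjG (fun x => x.card = n ∧ x ⊆ range N) q) ψ

theorem wit3 : Wit 3 8 := by
  have h : ∀ m < 256, ok3 m = true → (toSet 8 m).card = 3 := by decide +kernel
  refine ⟨7, bridge 7 3 7 C3 _ _ _ good3 hasCyc3 (by decide +kernel) fun m hm => ?_⟩
  have hm' : m < 256 := by
    rw [ok3, Bool.and_eq_true, Nat.blt_eq] at hm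
    exact hm.1
  exact ⟨hm', h m hm' hm, Finset.filter_subset _ _⟩

theorem inv4 : Inv 4 9 26 := by
  have h : ∀ m ∈ G4 ++ sig4 ++ sig4.map bb4, m < 2 ^ (8 + 1) ∧ (toSet (8 + 1) m).card = 4 ∧
      (∃ p ∈ toSet (8 + 1) m, p ∈ ({4, 5, 6, 7, 8} : Finset ℕ)) ∧
      ∃ p ∈ toSet (8 + 1) m, p ∈ ({0, 1, 2, 3, 6} : Finset ℕ) := by decide +kernel
  obtain ⟨ψ, h1, h2⟩ := bridge 8 4 26 C4 _ (QV 4 9 {4, 5, 6, 7, 8} {0, 1, 2, 3, 6}) _ good4
    hasCyc4 (by decide +kernel) fun m hm => by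
      have hm' : m ∈ G4 ++ sig4 ++ sig4.map bb4 := by
        simp only [List.mem_append, List.mem_map]
        rcases hm with e | ⟨i, hi, e | e⟩
        · exact Or.inl (Or.inl e)
        · exact Or.inl (Or.inr (e ▸ hi))
        · exact Or.inr ⟨i, hi, e.symm⟩
      obtain ⟨m1, m2, m3, m4⟩ := h m hm'
      exact ⟨m1, m2, Finset.filter_subset _ _, m3, m4⟩
  refine ⟨ψ, _, _, 6, 6, by decide, by decide, by decide, by decide, by decide, by decide,
    h1.mono fun x hx => hx.resolve_right fun e => ?_, h2⟩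
  exact absurd e.1 (by decide)

theorem inv_all : ∀ m : ℕ, ∃ N q, 2 * (N + 1) = (m + 4) * (m + 5) ∧ Inv (m + 4) N q
  | 0 => ⟨9, 26, rfl, inv4⟩
  | m + 1 => by
    obtain ⟨N, q, h1, h2⟩ := inv_all m
    obtain ⟨q', h3⟩ := h2.step (by omega)
    exact ⟨_, q', by nlinarith, h3⟩

theorem Inv.wit {n N q : ℕ} (h : Inv n N q) : Wit n N := by
  obtain ⟨φ, R, R₂, j, i, -, -, -, -, -, -, h1, h2⟩ := h
  exact ⟨q, φ, h1.mono fun x hx => Or.inl hx, h2.mono fun s hs =>
    ⟨⟨hs.1, fun x hx => ⟨(hs.2.1 x hx).1, (hs.2.1 x hx).2.1⟩, hs.2.2⟩, rfl⟩⟩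

theorem Wit.final {n k N : ℕ} (h : Wit n N) (hN : N ≤ 2 * n + k) [DecidableEq (Vtx n k)]
    [o : LinearOrder (Vtx n k)] :
    ∃ (q : ℕ) (z : cycles (kneser n k)), (∀ s ∈ z.1.support, s.card = q) ∧
      (Submodule.Quotient.mk z : Homology (kneser n k)) ∉
        Submodule.span ℤ (crossClasses (kneser n k)) := by
  obtain ⟨q, ψ, h1, h2⟩ := h
  let ι : Vtx n k → Finset ℕ := fun A => A.1.map Fin.valEmbedding
  have hι : Function.Injective ι := fun A B e => Subtype.ext (Finset.map_injective _ e)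
  have hadj : ∀ A B, disjG.Adj (ι A) (ι B) ↔ (kneser n k).Adj A B := fun A B =>
    and_congr hι.ne_iff (Finset.disjoint_map _)
  have hG := h1.comap (kneser n k) (fun _ => True) ι
    (fun A _ => (Finset.card_map _).le.trans A.2.le) fun A B _ _ e e' => e ((hadj A B).1 e')
  have : Nonempty (Vtx n k) := by
    obtain ⟨A, -, hA⟩ := Finset.exists_subset_card_eq
      (s := (Finset.univ : Finset (Fin (2 * n + k)))) (n := n) (by simp; omega)
    exact ⟨⟨A, hA⟩⟩
  have hf : ∀ x : Finset ℕ, x.card = n ∧ x ⊆ range N → ι (Function.invFun ι x) = x := by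
    intro x hx
    have hlt : ∀ p ∈ x, p < 2 * n + k := fun p hp => (Finset.mem_range.1 (hx.2 hp)).trans_le hN
    exact Function.invFun_eq ⟨⟨x.attachFin hlt, (Finset.card_attachFin _ _).trans hx.1⟩,
      Finset.map_valEmbedding_attachFin hlt⟩
  obtain ⟨c, c1, c2, c3⟩ := h2.map' o (Function.invFun ι) (Supp (kneser n k) (fun _ => True) q)
    (fun s => if s.card = q then ψ (s.image ι) else 0) fun s hs => by
      have hinj : Set.InjOn (Function.invFun ι) s := fun x hx y hy e => by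
        rw [← hf x (hs.2.1 x hx), e, hf y (hs.2.1 y hy)]
      have hc : (s.image (Function.invFun ι)).card = q :=
        (Finset.card_image_of_injOn hinj).trans hs.1
      refine ⟨hinj, ⟨hc, fun _ _ => trivial, fun A hA B hB => ?_⟩, ?_⟩
      · obtain ⟨x, hx, rfl⟩ := Finset.mem_image.1 hA
        obtain ⟨y, hy, rfl⟩ := Finset.mem_image.1 hB
        rw [← hadj, hf x (hs.2.1 x hx), hf y (hs.2.1 y hy)]
        exact hs.2.2 x hx y hy
      · rw [if_pos hc, Finset.image_image]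
        congr 1
        exact (Finset.image_congr fun x hx => hf x (hs.2.1 x hx)).trans Finset.image_id
  exact ⟨q, ⟨c, (Finsupp.mem_supported ℤ c).2 fun s hs => (indep_iff _ s).2 (c2 s hs).2.2, c1⟩,
    fun s hs => (c2 s hs).1, not_mem_span hG _ c3⟩

theorem wit_all (n k : ℕ) (hn : 3 ≤ n) (h3 : n = 3 → 2 ≤ k) (hk : n * (n - 3) ≤ 2 * (k + 1)) :
    ∃ N ≤ 2 * n + k, Wit n N := by
  by_cases e : n = 3
  · have := h3 e
    exact ⟨8, by omega, e ▸ wit3⟩
  · obtain ⟨m, rfl⟩ : ∃ m, n = m + 4 := ⟨n - 4, by omega⟩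
    obtain ⟨N, q, h1, h2⟩ := inv_all m
    refine ⟨N, ?_, h2.wit⟩
    rw [show m + 4 - 3 = m + 1 from rfl] at hk
    nlinarith

end Pool.Agent.Lib.MP_d1f823_co
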