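import Pool.Agent.Lib.MP_d1f823_co.Defs

/-! Integral chains: signs, cones, transport along vertex maps, pairing with mod 2 cochains. -/

namespace Pool.Agent.Lib.MP_d1f823_co

open Finset

section Order

variable {V : Type} [DecidableEq V] [LinearOrder V]

def ee (u v : V) : ℤ := if u < v then -1 else 1

def sg (s : Finset V) (v : V) : ℤ := ∏ u ∈ s, ee u v

omit [DecidableEq V] in
theorem ee_self (v : V) : ee v v = 1 := by simp [ee]

omit [DecidableEq V] in
theorem ee_sq (u v : V) : ee u v * ee u v = 1 := by unfold ee; split_ifs <;> simp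

omit [DecidableEq V] in
theorem ee_anti {u v : V} (h : u ≠ v) : ee u v = - ee v u := by
  unfold ee
  rcases lt_or_gt_of_ne h with h1 | h1
  · simp [h1, not_lt_of_gt h1]
  · simp [h1, not_lt_of_gt h1]

omit [DecidableEq V] in
theorem sg_eq (s : Finset V) (v : V) :
    (-1 : ℤ) ^ (s.filter fun u => u < v).card = sg s v := by
  unfold sg ee
  rw [Finset.prod_ite]
  simp

omit [DecidableEq V] in
theorem sg_sq (s : Finset V) (v : V) : sg s v * sg s v = 1 := by
  unfold sg
  rw [← Finset.prod_mul_distrib]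
  exact Finset.prod_eq_one fun u _ => ee_sq u v

theorem cast_unit {a : ℤ} (h : a * a = 1) : (a : ZMod 2) = 1 := by
  rcases Int.eq_one_or_neg_one_of_mul_eq_one h with h | h <;> subst h <;> decide

theorem bd_single (s : Finset V) (a : ℤ) :
    bd V (Finsupp.single s a) = ∑ v ∈ s, Finsupp.single (s.erase v) (a * sg s v) := by
  unfold bd
  rw [Finsupp.linearCombination_single, Finset.smul_sum]
  refine Finset.sum_congr rfl fun v _ => ?_
  rw [sg_eq, smul_smul, Finsupp.smul_single, smul_eq_mul, mul_one]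

end Order

/-- The pairing of an integral chain with a mod 2 cochain. -/
noncomputable def pr {V : Type} (φ : Finset V → ZMod 2) : (Finset V →₀ ℤ) →ₗ[ℤ] ZMod 2 :=
  Finsupp.linearCombination ℤ φ

theorem pr_single {V : Type} (φ : Finset V → ZMod 2) (s : Finset V) (a : ℤ) :
    pr φ (Finsupp.single s a) = (a : ZMod 2) * φ s := by
  unfold pr
  rw [Finsupp.linearCombination_single, zsmul_eq_mul]

theorem ext_on {V M : Type} [AddCommGroup M] (L L' : (Finset V →₀ ℤ) →ₗ[ℤ] M)
    (c : Finset V →₀ ℤ)
    (h : ∀ s ∈ c.support, L (Finsupp.single s 1) = L' (Finsupp.single s 1)) : L c = L' c := by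
  have e : c = ∑ s ∈ c.support, c s • Finsupp.single s (1 : ℤ) := by
    conv_lhs => rw [← Finsupp.sum_single c]
    unfold Finsupp.sum
    refine Finset.sum_congr rfl fun s _ => ?_
    rw [Finsupp.smul_single, smul_eq_mul, mul_one]
  rw [e, map_sum, map_sum]
  refine Finset.sum_congr rfl fun s hs => ?_
  rw [map_smul, map_smul, h s hs]

theorem pr_congr {V : Type} (φ ψ : Finset V → ZMod 2) (c : Finset V →₀ ℤ)
    (h : ∀ s ∈ c.support, φ s = ψ s) : pr φ c = pr ψ c :=
  ext_on _ _ c fun s hs => by rw [pr_single, pr_single, h s hs]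

theorem pr_zero {V : Type} (φ : Finset V → ZMod 2) (c : Finset V →₀ ℤ)
    (h : ∀ s ∈ c.support, φ s = 0) : pr φ c = 0 := by
  have := ext_on (pr φ) 0 c fun s hs => by rw [pr_single, h s hs]; simp
  simpa using this

theorem pr_bd {V : Type} [DecidableEq V] [LinearOrder V] (φ : Finset V → ZMod 2)
    (c : Finset V →₀ ℤ) : pr φ (bd V c) = pr (fun s => ∑ v ∈ s, φ (s.erase v)) c := by
  refine ext_on ((pr φ).comp (bd V)) _ c fun s _ => ?_
  rw [LinearMap.comp_apply, bd_single, map_sum, pr_single]
  simp only [pr_single, one_mul, Int.cast_one]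
  refine Finset.sum_congr rfl fun v _ => ?_
  rw [cast_unit (sg_sq s v), one_mul]

/-- The linear map sending the simplex `s` to `ε s` times the simplex `g s`. -/
noncomputable def push {V W : Type} (g : Finset V → Finset W) (ε : Finset V → ℤ) :
    (Finset V →₀ ℤ) →ₗ[ℤ] (Finset W →₀ ℤ) :=
  Finsupp.linearCombination ℤ fun s => Finsupp.single (g s) (ε s)

theorem push_single {V W : Type} (g : Finset V → Finset W) (ε : Finset V → ℤ) (s : Finset V)
    (a : ℤ) : push g ε (Finsupp.single s a) = Finsupp.single (g s) (a * ε s) := by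
  unfold push
  rw [Finsupp.linearCombination_single, Finsupp.smul_single, smul_eq_mul]

theorem push_supp {V W : Type} (g : Finset V → Finset W) (ε : Finset V → ℤ)
    (c : Finset V →₀ ℤ) : ∀ t ∈ (push g ε c).support, ∃ s ∈ c.support, t = g s := by
  classical
  intro t ht
  by_contra hne
  push Not at hne
  apply Finsupp.mem_support_iff.1 ht
  have := ext_on ((Finsupp.lapply t).comp (push g ε)) 0 c fun s hs => by
    rw [LinearMap.comp_apply, push_single, Finsupp.lapply_apply, Finsupp.single_eq_of_ne (hne s hs)]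
    simp
  simpa using this

theorem pr_push {V W : Type} (g : Finset V → Finset W) (ε : Finset V → ℤ)
    (hε : ∀ s, ε s * ε s = 1) (φ : Finset W → ZMod 2) (c : Finset V →₀ ℤ) :
    pr φ (push g ε c) = pr (fun s => φ (g s)) c := by
  refine ext_on ((pr φ).comp (push g ε)) _ c fun s _ => ?_
  rw [LinearMap.comp_apply, push_single, pr_single, pr_single, one_mul, cast_unit (hε s)]
  simp

section Cone

variable {V : Type} [DecidableEq V] [LinearOrder V]

noncomputable def cone (v : V) : (Finset V →₀ ℤ) →ₗ[ℤ] (Finset V →₀ ℤ) :=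
  push (insert v) fun s => sg s v

theorem bd_cone_single (v : V) (s : Finset V) (hv : v ∉ s) :
    bd V (cone v (Finsupp.single s 1)) =
      Finsupp.single s 1 - cone v (bd V (Finsupp.single s 1)) := by
  unfold cone
  rw [push_single, bd_single, bd_single, Finset.sum_insert hv, map_sum, Finset.erase_insert hv,
    sub_eq_add_neg, ← Finset.sum_neg_distrib]
  have h1 : sg (insert v s) v = sg s v := by
    unfold sg
    rw [Finset.prod_insert hv, ee_self, one_mul]
  rw [h1, one_mul, sg_sq]
  congr 1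
  refine Finset.sum_congr rfl fun u hu => ?_
  have huv : u ≠ v := fun h => hv (h ▸ hu)
  rw [push_single, Finset.erase_insert_of_ne huv.symm, ← Finsupp.single_neg]
  congr 1
  have h2 : sg (insert v s) u = ee v u * sg s u := by
    unfold sg
    rw [Finset.prod_insert hv]
  have h3 : sg s v = ee u v * sg (s.erase u) v := by
    unfold sg
    rw [Finset.mul_prod_erase s (fun w => ee w v) hu]
  rw [h2, h3, ee_anti huv]
  have := ee_sq v u
  linear_combination (-(sg (s.erase u) v * sg s u)) * this

theorem bd_cone (v : V) (c : Finset V →₀ ℤ) (hv : ∀ s ∈ c.support, v ∉ s) :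
    bd V (cone v c) = c - cone v (bd V c) :=
  ext_on ((bd V).comp (cone v)) (LinearMap.id - (cone v).comp (bd V)) c fun s hs =>
    bd_cone_single v s (hv s hs)

end Cone

section Transport

variable {V W : Type} [DecidableEq V] [LinearOrder V] [DecidableEq W] [LinearOrder W]

def kk (f : V → W) (u w : V) : ℤ := if u < w ∧ f w < f u then -1 else 1

def eps (f : V → W) (s : Finset V) : ℤ := ∏ u ∈ s, ∏ w ∈ s, kk f u w

omit [DecidableEq V] [DecidableEq W] in
theorem eps_sq (f : V → W) (s : Finset V) : eps f s * eps f s = 1 := by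
  unfold eps
  rw [← Finset.prod_mul_distrib]
  refine Finset.prod_eq_one fun u _ => ?_
  rw [← Finset.prod_mul_distrib]
  refine Finset.prod_eq_one fun w _ => ?_
  unfold kk
  split_ifs <;> simp

omit [DecidableEq V] [DecidableEq W] in
theorem kk_mul (f : V → W) {u v : V} (h : u ≠ v) (hf : f u ≠ f v) :
    kk f v u * kk f u v = ee u v * ee (f u) (f v) := by
  unfold kk ee
  rcases lt_or_gt_of_ne h with h1 | h1 <;> rcases lt_or_gt_of_ne hf with h2 | h2 <;>
    simp [h1, h2, not_lt_of_gt h1, not_lt_of_gt h2]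

omit [DecidableEq W] in
theorem eps_erase (f : V → W) (s : Finset V) (hf : Set.InjOn f s) {v : V} (hv : v ∈ s) :
    eps f s = eps f (s.erase v) * (sg s v * ∏ u ∈ s, ee (f u) (f v)) := by
  have h0 : kk f v v = 1 := by simp [kk]
  have h1 : eps f s = eps f (s.erase v) * ∏ u ∈ s.erase v, (kk f v u * kk f u v) := by
    unfold eps
    rw [← Finset.mul_prod_erase s _ hv, ← Finset.mul_prod_erase s _ hv, h0, one_mul,
      Finset.prod_mul_distrib]
    have : ∏ u ∈ s.erase v, ∏ w ∈ s, kk f u w =
        (∏ u ∈ s.erase v, kk f u v) * ∏ u ∈ s.erase v, ∏ w ∈ s.erase v, kk f u w := by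
      rw [← Finset.prod_mul_distrib]
      refine Finset.prod_congr rfl fun u _ => ?_
      rw [← Finset.mul_prod_erase s _ hv]
    rw [this]
    ring
  rw [h1]
  congr 1
  unfold sg
  rw [← Finset.prod_mul_distrib, ← Finset.mul_prod_erase s _ hv, ee_self, ee_self, one_mul,
    one_mul]
  refine Finset.prod_congr rfl fun u hu => ?_
  obtain ⟨h2, h3⟩ := Finset.mem_erase.1 hu
  exact kk_mul f h2 fun h => h2 (hf h3 hv h)

theorem bd_push_single (f : V → W) (s : Finset V) (hf : Set.InjOn f s) :
    bd W (push (fun s => s.image f) (eps f) (Finsupp.single s 1)) =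
      push (fun s => s.image f) (eps f) (bd V (Finsupp.single s 1)) := by
  rw [push_single, bd_single, bd_single, map_sum, Finset.sum_image hf]
  refine Finset.sum_congr rfl fun v hv => ?_
  rw [push_single]
  have h1 : (s.image f).erase (f v) = (s.erase v).image f := by
    ext w
    simp only [Finset.mem_erase, Finset.mem_image]
    constructor
    · rintro ⟨h, u, hu, rfl⟩
      exact ⟨u, ⟨fun e => h (e ▸ rfl), hu⟩, rfl⟩
    · rintro ⟨u, ⟨h, hu⟩, rfl⟩
      exact ⟨fun e => h (hf hu hv e), u, hu, rfl⟩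
  rw [h1]
  congr 1
  have h2 : sg (s.image f) (f v) = ∏ u ∈ s, ee (f u) (f v) := by
    unfold sg
    rw [Finset.prod_image hf]
  have h3 := sg_sq (s.image f) (f v)
  rw [eps_erase f s hf hv, ← h2]
  linear_combination (eps f (s.erase v) * sg s v) * h3

theorem bd_push (f : V → W) (c : Finset V →₀ ℤ) (hf : ∀ s ∈ c.support, Set.InjOn f s) :
    bd W (push (fun s => s.image f) (eps f) c) =
      push (fun s => s.image f) (eps f) (bd V c) :=
  ext_on ((bd W).comp (push (fun s => s.image f) (eps f)))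
    ((push (fun s => s.image f) (eps f)).comp (bd V)) c fun s hs => bd_push_single f s (hf s hs)

end Transport

/-- There is an integral cycle supported on simplices with property `P` that pairs non-trivially
with `φ`. -/
def HasCyc {V : Type} [DecidableEq V] (P : Finset V → Prop) (φ : Finset V → ZMod 2) : Prop :=
  ∃ (o : LinearOrder V) (c : Finset V →₀ ℤ),
    @bd V _ o c = 0 ∧ (∀ s ∈ c.support, P s) ∧ pr φ c ≠ 0

theorem HasCyc.map' {V W : Type} [DecidableEq V] [DecidableEq W] {P : Finset V → Prop}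
    {φ : Finset V → ZMod 2} (h : HasCyc P φ) (o' : LinearOrder W) (f : V → W)
    (P' : Finset W → Prop) (φ' : Finset W → ZMod 2)
    (H : ∀ s, P s → Set.InjOn f s ∧ P' (s.image f) ∧ φ' (s.image f) = φ s) :
    ∃ c : Finset W →₀ ℤ, @bd W _ o' c = 0 ∧ (∀ s ∈ c.support, P' s) ∧ pr φ' c ≠ 0 := by
  obtain ⟨o, c, h1, h2, h3⟩ := h
  refine ⟨push (fun s => s.image f) (eps f) c, ?_, ?_, ?_⟩
  · rw [bd_push f c fun s hs => (H s (h2 s hs)).1, h1, map_zero]
  · intro t ht
    obtain ⟨s, hs, rfl⟩ := push_supp _ _ _ t ht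
    exact (H s (h2 s hs)).2.1
  · rw [pr_push _ _ (eps_sq f), pr_congr _ φ c fun s hs => (H s (h2 s hs)).2.2]
    exact h3

theorem HasCyc.map {V W : Type} [DecidableEq V] [DecidableEq W] {P : Finset V → Prop}
    {φ : Finset V → ZMod 2} (h : HasCyc P φ) (f : V → W)
    (P' : Finset W → Prop) (φ' : Finset W → ZMod 2)
    (H : ∀ s, P s → Set.InjOn f s ∧ P' (s.image f) ∧ φ' (s.image f) = φ s) :
    HasCyc P' φ' :=
  ⟨@linearOrderOfSTO W WellOrderingRel _ (Classical.decRel _), h.map' _ f P' φ' H⟩

theorem HasCyc.susp1 {V : Type} [DecidableEq V] {P : Finset V → Prop}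
    {φ : Finset V → ZMod 2} (h : HasCyc P φ) (a b : V)
    (P' : Finset V → Prop) (φ' : Finset V → ZMod 2)
    (H : ∀ s, P s → a ∉ s ∧ b ∉ s ∧ P' (insert a s) ∧ P' (insert b s) ∧
      φ' (insert a s) = φ s ∧ φ' (insert b s) = 0) :
    HasCyc P' φ' := by
  obtain ⟨o, c, h1, h2, h3⟩ := h
  refine ⟨o, cone a c - cone b c, ?_, ?_, ?_⟩
  · rw [map_sub, bd_cone a c fun s hs => (H s (h2 s hs)).1,
      bd_cone b c fun s hs => (H s (h2 s hs)).2.1, h1]
    simp
  · intro t ht
    rcases Finset.mem_union.1 (Finsupp.support_sub ht) with h | h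
    · obtain ⟨s, hs, rfl⟩ := push_supp _ _ _ t h
      exact (H s (h2 s hs)).2.2.1
    · obtain ⟨s, hs, rfl⟩ := push_supp _ _ _ t h
      exact (H s (h2 s hs)).2.2.2.1
  · unfold cone
    rw [map_sub, pr_push _ _ (fun s => sg_sq s a), pr_push _ _ (fun s => sg_sq s b),
      pr_congr _ φ c fun s hs => (H s (h2 s hs)).2.2.2.2.1,
      pr_zero _ c fun s hs => (H s (h2 s hs)).2.2.2.2.2, sub_zero]
    exact h3

end Pool.Agent.Lib.MP_d1f823_co
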