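import Pool.Agent.Lib.MP_d1f823_co.Lift

/-! Boolean checkers on bit masks and their soundness. -/

namespace Pool.Agent.Lib.MP_d1f823_co

open Finset

/-- The disjointness graph on bit masks. -/
def maskG : SimpleGraph ℕ where
  Adj x y := x ≠ y ∧ x &&& y = 0
  symm := ⟨fun _ _ h => ⟨h.1.symm, by rw [Nat.and_comm]; exact h.2⟩⟩
  loopless := ⟨fun _ h => h.1 rfl⟩

def meetB (x y : ℕ) : Bool := !(Nat.beq (Nat.land x y) 0)

theorem meetB_iff (x y : ℕ) : meetB x y = true ↔ x &&& y ≠ 0 := by
  unfold meetB
  rw [Bool.not_eq_true', ← Bool.not_eq_true, Nat.beq_eq]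
  rfl

theorem not_adj_iff (x y : ℕ) : ¬ maskG.Adj x y ↔ (Nat.beq x y || meetB x y) = true := by
  rw [Bool.or_eq_true, Nat.beq_eq, meetB_iff]
  change ¬ (x ≠ y ∧ x &&& y = 0) ↔ _
  tauto

def pw (r : ℕ → ℕ → Bool) : List ℕ → Bool
  | [] => true
  | x :: xs => xs.all (r x) && pw r xs

theorem pw_sound (r : ℕ → ℕ → Bool) : ∀ xs, pw r xs = true → xs.Pairwise fun x y => r x y = true
  | [], _ => List.Pairwise.nil
  | x :: xs, h => by
    rw [pw, Bool.and_eq_true, List.all_eq_true] at h
    exact List.Pairwise.cons h.1 (pw_sound r xs h.2)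

theorem indep_of_pairwise : ∀ {xs : List ℕ}, (xs.Pairwise fun x y => meetB x y = true) →
    ∀ x ∈ xs, ∀ y ∈ xs, ¬ maskG.Adj x y
  | [], _, x, hx, _, _ => by simp at hx
  | u :: xs, h, x, hx, y, hy => by
    obtain ⟨h1, h2⟩ := List.pairwise_cons.1 h
    intro e
    rcases List.mem_cons.1 hx with e1 | e1 <;> rcases List.mem_cons.1 hy with e2 | e2
    · exact e.1 (e1.trans e2.symm)
    · exact (meetB_iff x y).1 (e1 ▸ h1 y e2) e.2
    · exact (meetB_iff y x).1 (e2 ▸ h1 x e1) e.symm.2
    · exact indep_of_pairwise h2 x e1 y e2 e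

/-! ### Sorting -/

def lexLe : List ℕ → List ℕ → Bool
  | [], _ => true
  | _ :: _, [] => false
  | x :: a, y :: b => bif Nat.beq x y then lexLe a b else Nat.ble x y

def merge : ℕ → List (List ℕ) → List (List ℕ) → List (List ℕ)
  | 0, a, b => a ++ b
  | _ + 1, [], b => b
  | _ + 1, x :: a, [] => x :: a
  | n + 1, x :: a, y :: b =>
    bif lexLe x y then x :: merge n a (y :: b) else y :: merge n (x :: a) b

theorem merge_perm : ∀ n a b, (merge n a b).Perm (a ++ b)
  | 0, _, _ => List.Perm.refl _
  | _ + 1, [], _ => List.Perm.refl _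
  | _ + 1, x :: a, [] => by simp [merge]
  | n + 1, x :: a, y :: b => by
    rw [merge]
    cases lexLe x y
    · exact ((merge_perm n (x :: a) b).cons y).trans List.perm_middle.symm
    · exact (merge_perm n a (y :: b)).cons x

def pairUp (f : ℕ) : List (List (List ℕ)) → List (List (List ℕ))
  | [] => []
  | [a] => [a]
  | a :: b :: r => merge f a b :: pairUp f r

theorem pairUp_perm (f : ℕ) : ∀ L, (pairUp f L).flatten.Perm L.flatten
  | [] => List.Perm.refl _
  | [_] => List.Perm.refl _
  | a :: b :: r => by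
    rw [pairUp, List.flatten_cons, List.flatten_cons, List.flatten_cons, ← List.append_assoc]
    exact (merge_perm f a b).append (pairUp_perm f r)

def iter (f : ℕ) : ℕ → List (List (List ℕ)) → List (List (List ℕ))
  | 0, L => L
  | n + 1, L => iter f n (pairUp f L)

theorem iter_perm (f : ℕ) : ∀ n L, (iter f n L).flatten.Perm L.flatten
  | 0, _ => List.Perm.refl _
  | n + 1, L => (iter_perm f n _).trans (pairUp_perm f L)

def msort (l : List (List ℕ)) : List (List ℕ) := (iter 100000 14 (l.map fun x => [x])).flatten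

theorem msort_perm (l : List (List ℕ)) : (msort l).Perm l := by
  refine (iter_perm _ _ _).trans (List.Perm.of_eq ?_)
  induction l with
  | nil => rfl
  | cons x l ih => simp [ih]

def eqL : List ℕ → List ℕ → Bool
  | [], [] => true
  | x :: a, y :: b => Nat.beq x y && eqL a b
  | _, _ => false

theorem eqL_sound : ∀ a b, eqL a b = true → a = b
  | [], [], _ => rfl
  | [], _ :: _, h => by simp [eqL] at h
  | _ :: _, [], h => by simp [eqL] at h
  | x :: a, y :: b, h => by
    rw [eqL, Bool.and_eq_true, Nat.beq_eq] at h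
    rw [h.1, eqL_sound a b h.2]

def eqLL : List (List ℕ) → List (List ℕ) → Bool
  | [], [] => true
  | x :: a, y :: b => eqL x y && eqLL a b
  | _, _ => false

theorem eqLL_sound : ∀ a b, eqLL a b = true → a = b
  | [], [], _ => rfl
  | [], _ :: _, h => by simp [eqLL] at h
  | _ :: _, [], h => by simp [eqLL] at h
  | x :: a, y :: b, h => by
    rw [eqLL, Bool.and_eq_true] at h
    rw [eqL_sound _ _ h.1, eqLL_sound a b h.2]

/-! ### Chains given by lists -/

def sgn (b : Bool) : ℤ := bif b then 1 else -1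

noncomputable def chain (l : List (Bool × List ℕ)) : Finset ℕ →₀ ℤ :=
  (l.map fun p => Finsupp.single p.2.toFinset (sgn p.1)).sum

theorem chain_cons (p : Bool × List ℕ) (l : List (Bool × List ℕ)) :
    chain (p :: l) = Finsupp.single p.2.toFinset (sgn p.1) + chain l := by
  simp [chain]

theorem chain_append (l l' : List (Bool × List ℕ)) : chain (l ++ l') = chain l + chain l' := by
  simp [chain]

def facesL : List ℕ → List (Bool × List ℕ)
  | [] => []
  | x :: xs => (true, xs) :: (facesL xs).map fun p => (!p.1, x :: p.2)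

theorem facesL_mem : ∀ xs, ∀ p ∈ facesL xs, ∀ y ∈ p.2, y ∈ xs
  | [], p, hp => by simp [facesL] at hp
  | x :: xs, p, hp => by
    rw [facesL, List.mem_cons, List.mem_map] at hp
    rcases hp with rfl | ⟨r, hr, rfl⟩
    · exact fun y hy => List.mem_cons_of_mem _ hy
    · intro y hy
      rcases List.mem_cons.1 hy with rfl | hy
      · exact List.mem_cons_self
      · exact List.mem_cons_of_mem _ (facesL_mem xs r hr y hy)

theorem cone_list (x : ℕ) (ys : List ℕ) (h : ∀ y ∈ ys, x < y) (a : ℤ) :
    cone x (Finsupp.single ys.toFinset a) = Finsupp.single (x :: ys).toFinset a := by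
  unfold cone
  rw [push_single, List.toFinset_cons]
  have : sg ys.toFinset x = 1 := Finset.prod_eq_one fun y hy =>
    if_neg (not_lt_of_gt (h y (List.mem_toFinset.1 hy)))
  rw [this, mul_one]

theorem cone_chain (x : ℕ) : ∀ l : List (Bool × List ℕ), (∀ p ∈ l, ∀ y ∈ p.2, x < y) →
    cone x (chain l) = - chain (l.map fun p => (!p.1, x :: p.2))
  | [], _ => by simp [chain]
  | p :: l, h => by
    rw [List.map_cons, chain_cons, chain_cons, map_add,
      cone_chain x l fun r hr => h r (List.mem_cons_of_mem _ hr),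
      cone_list x _ (h p List.mem_cons_self), neg_add, ← Finsupp.single_neg]
    congr 2
    cases p.1 <;> simp [sgn]

theorem bd_list : ∀ xs : List ℕ, xs.Pairwise (· < ·) →
    bd ℕ (Finsupp.single xs.toFinset 1) = chain (facesL xs)
  | [], _ => by simp [bd_single, chain, facesL]
  | x :: xs, h => by
    obtain ⟨h1, h2⟩ := List.pairwise_cons.1 h
    rw [← cone_list x xs h1, bd_cone_single x _ fun e => (h1 x (List.mem_toFinset.1 e)).false,
      bd_list xs h2, cone_chain x _ fun p hp y hy => h1 y (facesL_mem xs p hp y hy), facesL,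
      chain_cons, sub_neg_eq_add]
    rfl

def bdL : List (Bool × List ℕ) → List (Bool × List ℕ)
  | [] => []
  | p :: z => ((facesL p.2).map fun r => (p.1 == r.1, r.2)) ++ bdL z

theorem chain_twist (b : Bool) : ∀ l : List (Bool × List ℕ),
    chain (l.map fun r => (b == r.1, r.2)) = sgn b • chain l
  | [] => by simp [chain]
  | p :: l => by
    rw [List.map_cons, chain_cons, chain_cons, chain_twist b l, smul_add, Finsupp.smul_single]
    congr 2
    cases b <;> cases p.1 <;> simp [sgn]

theorem bd_chain : ∀ z : List (Bool × List ℕ), (∀ p ∈ z, p.2.Pairwise (· < ·)) →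
    bd ℕ (chain z) = chain (bdL z)
  | [], _ => by simp [chain, bdL]
  | p :: z, h => by
    rw [chain_cons, map_add, bd_chain z fun r hr => h r (List.mem_cons_of_mem _ hr), bdL,
      chain_append, chain_twist, ← bd_list _ (h p List.mem_cons_self), ← map_smul,
      Finsupp.smul_single, smul_eq_mul, mul_one]

def part (b : Bool) : List (Bool × List ℕ) → List (List ℕ)
  | [] => []
  | p :: l => bif p.1 == b then p.2 :: part b l else part b l

noncomputable def ch1 (l : List (List ℕ)) : Finset ℕ →₀ ℤ :=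
  (l.map fun p => Finsupp.single p.toFinset (1 : ℤ)).sum

theorem chain_part : ∀ l : List (Bool × List ℕ),
    chain l = ch1 (part true l) - ch1 (part false l)
  | [] => by simp [chain, ch1, part]
  | (true, xs) :: l => by
    rw [chain_cons, chain_part l]
    simp [part, ch1, sgn, add_sub_assoc]
  | (false, xs) :: l => by
    rw [chain_cons, chain_part l]
    simp only [part, ch1, sgn, cond_false, cond_true, beq_self_eq_true, List.map_cons,
      List.sum_cons, Finsupp.single_neg, show (false == true) = false from rfl]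
    abel

def cycB (z : List (Bool × List ℕ)) : Bool :=
  eqLL (msort (part true (bdL z))) (msort (part false (bdL z)))

theorem cycB_sound (z : List (Bool × List ℕ)) (h : ∀ p ∈ z, p.2.Pairwise (· < ·))
    (hc : cycB z = true) : bd ℕ (chain z) = 0 := by
  rw [bd_chain z h, chain_part, sub_eq_zero]
  have := ((msort_perm _).symm.trans (List.Perm.of_eq (eqLL_sound _ _ hc))).trans (msort_perm _)
  exact (this.map _).sum_eq

theorem chain_supp : ∀ z : List (Bool × List ℕ), ∀ s ∈ (chain z).support,
    ∃ p ∈ z, s = p.2.toFinset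
  | [], s, hs => by simp [chain] at hs
  | p :: z, s, hs => by
    rw [chain_cons] at hs
    rcases Finset.mem_union.1 (Finsupp.support_add hs) with h | h
    · exact ⟨p, List.mem_cons_self, Finset.mem_singleton.1 (Finsupp.support_single_subset h)⟩
    · obtain ⟨r, hr, e⟩ := chain_supp z s h
      exact ⟨r, List.mem_cons_of_mem _ hr, e⟩

theorem pr_chain (φ : Finset ℕ → ZMod 2) : ∀ z : List (Bool × List ℕ),
    pr φ (chain z) = (z.map fun p => φ p.2.toFinset).sum
  | [] => by simp [chain]
  | p :: z => by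
    rw [chain_cons, map_add, pr_chain φ z, pr_single, cast_unit (by cases p.1 <;> simp [sgn])]
    simp

/-! ### Keys and the cocycle counting the listed faces -/

def key : List ℕ → ℕ
  | [] => 0
  | x :: xs => Nat.lor (2 ^ x) (key xs)

theorem testBit_key : ∀ (l : List ℕ) (y : ℕ), (key l).testBit y = true ↔ y ∈ l
  | [], y => by simp [key]
  | x :: l, y => by
    change (2 ^ x ||| key l).testBit y = true ↔ _
    rw [Nat.testBit_or, Bool.or_eq_true, testBit_key l y, Nat.testBit_two_pow, List.mem_cons,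
      decide_eq_true_eq, eq_comm]

theorem key_eq_iff (l l' : List ℕ) : l.toFinset = l'.toFinset ↔ key l = key l' := by
  constructor
  · intro h
    refine Nat.eq_of_testBit_eq fun y => Bool.eq_iff_iff.2 ?_
    rw [testBit_key, testBit_key, ← List.mem_toFinset, h, List.mem_toFinset]
  · intro h
    ext y
    rw [List.mem_toFinset, List.mem_toFinset, ← testBit_key, h, testBit_key]

theorem key_sub_iff (l : List ℕ) (K : ℕ) :
    Nat.beq (Nat.land (key l) K) (key l) = true ↔ ∀ y ∈ l, K.testBit y = true := by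
  rw [Nat.beq_eq]
  change key l &&& K = key l ↔ _
  constructor
  · intro h y hy
    have := (testBit_key l y).2 hy
    rw [← h, Nat.testBit_and, Bool.and_eq_true] at this
    exact this.2
  · intro h
    refine Nat.eq_of_testBit_eq fun y => Bool.eq_iff_iff.2 ?_
    rw [Nat.testBit_and, Bool.and_eq_true, testBit_key]
    exact ⟨fun e => e.1, fun e => ⟨e, h y e⟩⟩

def phiP (P : List (List ℕ)) (s : Finset ℕ) : ZMod 2 :=
  (P.map fun L => if s = L.toFinset then 1 else 0).sum

theorem phiP_ne {P : List (List ℕ)} {s : Finset ℕ} (h : phiP P s ≠ 0) :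
    ∃ L ∈ P, s = L.toFinset := by
  by_contra e
  push Not at e
  refine h (List.sum_eq_zero fun x hx => ?_)
  obtain ⟨L, hL, rfl⟩ := List.mem_map.1 hx
  exact if_neg (e L hL)

theorem sum_ite_count {α : Type} (p : α → Prop) [DecidablePred p] (r : α → Bool) :
    ∀ l : List α, (∀ x ∈ l, p x ↔ r x = true) →
      (l.map fun x => if p x then (1 : ZMod 2) else 0).sum = ((l.filter r).length : ℕ)
  | [], _ => by simp
  | x :: l, h => by
    rw [List.map_cons, List.sum_cons,
      sum_ite_count p r l fun y hy => h y (List.mem_cons_of_mem _ hy)]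
    have := h x List.mem_cons_self
    by_cases e : p x
    · rw [if_pos e, List.filter_cons_of_pos (this.1 e), List.length_cons]
      push_cast
      ring
    · rw [if_neg e, List.filter_cons_of_neg fun e' => e (this.2 e'), zero_add]

def cnt (ks : List ℕ) : List (Bool × List ℕ) → ℕ
  | [] => 0
  | p :: z => (ks.filter fun K => Nat.beq (key p.2) K).length + cnt ks z

theorem pr_phiP (P : List (List ℕ)) : ∀ z : List (Bool × List ℕ),
    (z.map fun p => phiP P p.2.toFinset).sum = (cnt (P.map key) z : ℕ)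
  | [] => by simp [cnt]
  | p :: z => by
    rw [List.map_cons, List.sum_cons, pr_phiP P z, cnt, phiP,
      sum_ite_count _ (fun L => Nat.beq (key p.2) (key L)) P fun L _ => by
        rw [key_eq_iff, Nat.beq_eq],
      List.filter_map, List.length_map]
    push_cast
    rfl

def simpB (q : ℕ) (ok : ℕ → Bool) (xs : List ℕ) : Bool :=
  Nat.beq xs.length q && xs.all ok && pw (fun x y => Nat.blt x y && meetB x y) xs

theorem hasCyc_of_check (q : ℕ) (ok : ℕ → Bool) (P : List (List ℕ)) (ks : List ℕ)
    (hk : P.map key = ks) (z : List (Bool × List ℕ))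
    (h1 : (z.all fun p => simpB q ok p.2) = true) (h2 : cycB z = true)
    (h3 : cnt ks z % 2 = 1) :
    HasCyc (Supp maskG (fun x => ok x = true) q) (phiP P) := by
  rw [List.all_eq_true] at h1
  have H : ∀ p ∈ z, p.2.length = q ∧ (∀ x ∈ p.2, ok x = true) ∧ p.2.Pairwise (· < ·) ∧
      p.2.Pairwise fun x y => meetB x y = true := by
    intro p hp
    have := h1 p hp
    rw [simpB, Bool.and_eq_true, Bool.and_eq_true, Nat.beq_eq, List.all_eq_true] at this
    have h4 := pw_sound _ _ this.2
    refine ⟨this.1.1, this.1.2, h4.imp fun e => ?_, h4.imp fun e => ?_⟩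
    · rw [Bool.and_eq_true, Nat.blt_eq] at e
      exact e.1
    · rw [Bool.and_eq_true] at e
      exact e.2
  refine ⟨inferInstance, chain z, cycB_sound z (fun p hp => (H p hp).2.2.1) h2, fun s hs => ?_, ?_⟩
  · obtain ⟨p, hp, rfl⟩ := chain_supp z s hs
    obtain ⟨m1, m2, m3, m4⟩ := H p hp
    refine ⟨?_, fun x hx => m2 x (List.mem_toFinset.1 hx), fun x hx y hy =>
      indep_of_pairwise m4 x (List.mem_toFinset.1 hx) y (List.mem_toFinset.1 hy)⟩
    rw [List.toFinset_card_of_nodup (m3.imp fun e => e.ne), m1]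
  · rw [pr_chain, pr_phiP, hk, Ne, ZMod.natCast_eq_zero_iff]
    omega

/-! ### The cross-polytope search -/

def optB (C L : List ℕ) : List ℕ → List (List ℕ) → Bool
  | [], [] => true
  | l :: ls, o :: os =>
    (C.all fun x => meetB l x ||
      !(L.all fun m => Nat.beq m l || (Nat.beq x m || meetB x m)) || o.any (Nat.beq x)) &&
      optB C L ls os
  | _, _ => false

theorem optB_sound (C L : List ℕ) (w : ℕ → ℕ) : ∀ ls os, optB C L ls os = true →
    (∀ l ∈ ls, w l ∈ C ∧ maskG.Adj l (w l) ∧ ∀ m ∈ L, m ≠ l → ¬ maskG.Adj (w l) m) →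
    List.Forall₂ (fun x o => x ∈ o) (ls.map w) os
  | [], [], _, _ => List.Forall₂.nil
  | [], _ :: _, h, _ => by simp [optB] at h
  | _ :: _, [], h, _ => by simp [optB] at h
  | l :: ls, o :: os, h, H => by
    rw [optB, Bool.and_eq_true, List.all_eq_true] at h
    obtain ⟨m1, m2, m3⟩ := H l List.mem_cons_self
    refine List.Forall₂.cons ?_
      (optB_sound C L w ls os h.2 fun l' hl' => H l' (List.mem_cons_of_mem _ hl'))
    have := h.1 _ m1
    rw [Bool.or_eq_true, Bool.or_eq_true, meetB_iff, List.any_eq_true, Bool.not_eq_true',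
      ← Bool.not_eq_true, List.all_eq_true] at this
    rcases this with (e | e) | ⟨y, hy, e⟩
    · exact (e m2.2).elim
    · refine (e fun m hm => ?_).elim
      rw [Bool.or_eq_true, Nat.beq_eq, ← not_adj_iff]
      by_cases e' : m = l
      · exact Or.inl e'
      · exact Or.inr (m3 m hm e')
    · rw [Nat.beq_eq] at e
      exact e ▸ hy

def srch (ks : List ℕ) : List (List ℕ) → List ℕ → ℕ → Bool
  | [], _, K => Nat.beq ((ks.filter fun k => Nat.beq (Nat.land k K) k).length % 2) 0
  | o :: os, ch, K => o.all fun w =>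
      !(ch.all fun c => Nat.beq w c || meetB w c) || srch ks os (w :: ch) (Nat.lor (2 ^ w) K)

theorem srch_sound (ks : List ℕ) : ∀ (os : List (List ℕ)) (ws ch : List ℕ) (K : ℕ),
    srch ks os ch K = true → List.Forall₂ (fun x o => x ∈ o) ws os →
    (∀ w ∈ ws, ∀ c ∈ ch, ¬ maskG.Adj w c) → (∀ w ∈ ws, ∀ c ∈ ws, ¬ maskG.Adj w c) →
    ∃ K' : ℕ, (∀ y, K'.testBit y = true ↔ y ∈ ws ∨ K.testBit y = true) ∧
      (ks.filter fun k => Nat.beq (Nat.land k K') k).length % 2 = 0
  | [], _, _, K, h, List.Forall₂.nil, _, _ => ⟨K, by simp, by rwa [srch, Nat.beq_eq] at h⟩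
  | o :: os, w :: ws, ch, K, h, List.Forall₂.cons h1 h2, h3, h4 => by
    rw [srch, List.all_eq_true] at h
    have h5 := h w h1
    rw [Bool.or_eq_true, Bool.not_eq_true', ← Bool.not_eq_true, List.all_eq_true] at h5
    rcases h5 with e | e
    · exact (e fun c hc => (not_adj_iff _ _).1 (h3 w List.mem_cons_self c hc)).elim
    · obtain ⟨K', m1, m2⟩ := srch_sound ks os ws (w :: ch) _ e h2
        (fun u hu c hc => by
          rcases List.mem_cons.1 hc with rfl | hc
          · exact h4 u (List.mem_cons_of_mem _ hu) c List.mem_cons_self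
          · exact h3 u (List.mem_cons_of_mem _ hu) c hc)
        fun u hu c hc => h4 u (List.mem_cons_of_mem _ hu) c (List.mem_cons_of_mem _ hc)
      refine ⟨K', fun y => ?_, m2⟩
      rw [m1]
      change _ ∨ (2 ^ w ||| K).testBit y = true ↔ _
      rw [Nat.testBit_or, Bool.or_eq_true, Nat.testBit_two_pow, List.mem_cons, decide_eq_true_eq,
        eq_comm]
      tauto

theorem sum_tr_eq {V ι : Type} [DecidableEq V] [DecidableEq ι] {G : SimpleGraph V} {I : Finset ι}
    {a b : ι → V} (hab : ∀ i ∈ I, G.Adj (a i) (b i)) (S : Finset V) (hS : S.card = I.card)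
    (hi : ∀ x ∈ S, ∀ y ∈ S, ¬ G.Adj x y) (p : Prop) [Decidable p]
    (hp : p ↔ ∀ x ∈ S, ∃ i ∈ I, x = a i ∨ x = b i) :
    ∑ J ∈ I.powerset, (if tr I a b J = S then (1 : ZMod 2) else 0) = if p then 1 else 0 := by
  by_cases h : p
  · rw [if_pos h, Finset.sum_eq_single (I.filter fun i => a i ∈ S), if_pos]
    · refine (Finset.eq_of_subset_of_card_le (fun x hx => ?_)
        (hS ▸ Finset.card_image_le)).symm
      obtain ⟨i, m1, rfl | rfl⟩ := hp.1 h x hx
      · exact Finset.mem_image.2 ⟨i, m1, if_pos (Finset.mem_filter.2 ⟨m1, hx⟩)⟩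
      · refine Finset.mem_image.2 ⟨i, m1, if_neg fun e => ?_⟩
        rw [Finset.mem_filter] at e
        exact hi _ e.2 _ hx (hab i m1)
    · intro J hJ hne
      refine if_neg fun e => hne (Finset.ext fun i => ?_)
      rw [Finset.mem_filter]
      constructor
      · intro m1
        have m2 := Finset.mem_powerset.1 hJ m1
        exact ⟨m2, e ▸ Finset.mem_image.2 ⟨i, m2, if_pos m1⟩⟩
      · rintro ⟨m1, m2⟩
        by_contra m3
        exact hi _ m2 _ (e ▸ Finset.mem_image.2 ⟨i, m1, if_neg m3⟩) (hab i m1)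
    · exact fun e => (e (Finset.mem_powerset.2 (Finset.filter_subset _ _))).elim
  · rw [if_neg h]
    refine Finset.sum_eq_zero fun J _ => if_neg fun e => h (hp.2 fun x hx => ?_)
    obtain ⟨i, m1, m2⟩ := mem_tr (e ▸ hx : x ∈ tr I a b J)
    exact ⟨i, m1, by tauto⟩

theorem sum_list_comm {α β : Type} (s : Finset α) (f : α → β → ZMod 2) : ∀ l : List β,
    ∑ J ∈ s, (l.map (f J)).sum = (l.map fun L => ∑ J ∈ s, f J L).sum
  | [] => by simp
  | x :: l => by
    simp only [List.map_cons, List.sum_cons]
    rw [Finset.sum_add_distrib, sum_list_comm s f l]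

def goodB (q : ℕ) (C ks : List ℕ) (d : List ℕ × List (List ℕ)) : Bool :=
  Nat.beq d.1.length q && pw (fun x y => !(Nat.beq x y) && meetB x y) d.1 &&
    (C.all fun x => !(d.1.all fun l => meetB x l) || d.1.any (Nat.beq x)) &&
    optB C d.1 d.1 d.2 && srch ks d.2 [] (key d.1)

theorem good_of_check (q : ℕ) (C ks : List ℕ) (D : List (List ℕ × List (List ℕ)))
    (hk : (D.map Prod.fst).map key = ks) (h : D.all (goodB q C ks) = true) :
    Good maskG (fun x => x ∈ C) (phiP (D.map Prod.fst)) q := by
  rw [List.all_eq_true] at h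
  have H : ∀ d ∈ D, d.1.toFinset.card = q ∧ (∀ x ∈ d.1, ∀ y ∈ d.1, ¬ maskG.Adj x y) ∧
      (∀ x ∈ C, (∀ l ∈ d.1, meetB x l = true) → x ∈ d.1) ∧
      optB C d.1 d.1 d.2 = true ∧ srch ks d.2 [] (key d.1) = true := by
    intro d hd
    have := h d hd
    simp only [goodB, Bool.and_eq_true, Nat.beq_eq] at this
    obtain ⟨⟨⟨⟨m1, m2⟩, m3⟩, m4⟩, m5⟩ := this
    have m6 := pw_sound _ _ m2
    refine ⟨?_, indep_of_pairwise (m6.imp fun e => ?_), fun x hx e => ?_, m4, m5⟩
    · rw [List.toFinset_card_of_nodup (m6.imp fun e => ?_), m1]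
      rw [Bool.and_eq_true, Bool.not_eq_true', ← Bool.not_eq_true, Nat.beq_eq] at e
      exact e.1
    · rw [Bool.and_eq_true] at e
      exact e.2
    · have := List.all_eq_true.1 m3 x hx
      rw [Bool.or_eq_true, Bool.not_eq_true', ← Bool.not_eq_true, List.all_eq_true,
        List.any_eq_true] at this
      rcases this with e' | ⟨y, hy, e'⟩
      · exact (e' e).elim
      · rw [Nat.beq_eq] at e'
        exact e' ▸ hy
  have H' : ∀ s, phiP (D.map Prod.fst) s ≠ 0 → ∃ d ∈ D, s = d.1.toFinset := by
    intro s hs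
    obtain ⟨L, hL, e⟩ := phiP_ne hs
    obtain ⟨d, hd, rfl⟩ := List.mem_map.1 hL
    exact ⟨d, hd, e⟩
  refine ⟨fun s hs => ?_, fun t h1 h2 => ?_, fun ι _ I a b h1 h2 h3 h4 => ?_⟩
  · obtain ⟨d, hd, rfl⟩ := H' s hs
    exact (H d hd).1
  · refine Finset.sum_eq_zero fun v hv => ?_
    by_contra hne
    obtain ⟨d, hd, e⟩ := H' _ hne
    have hv' : v ∉ d.1 := fun e' => Finset.notMem_erase v t (e ▸ List.mem_toFinset.2 e')
    refine hv' ((H d hd).2.2.1 v (h1 v hv) fun l hl => ?_)
    have := (not_adj_iff _ _).1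
      (h2 v hv l (Finset.mem_of_mem_erase (e ▸ List.mem_toFinset.2 hl)))
    rw [Bool.or_eq_true, Nat.beq_eq] at this
    exact this.resolve_left fun e' => hv' (e' ▸ hl)
  · by_contra hne
    obtain ⟨J, -, hJ⟩ := Finset.exists_ne_zero_of_sum_ne_zero hne
    obtain ⟨d, hd, e⟩ := H' _ hJ
    obtain ⟨-, -, -, m4, m5⟩ := H d hd
    have hex : ∀ l, ∃ w, l ∈ d.1 → ∃ i ∈ I, l = (if i ∈ J then a i else b i) ∧
        w = (if i ∈ I \ J then a i else b i) := by
      intro l
      by_cases hl : l ∈ d.1
      · obtain ⟨i, hi, e'⟩ := Finset.mem_image.1 (e ▸ List.mem_toFinset.2 hl : l ∈ tr I a b J)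
        exact ⟨_, fun _ => ⟨i, hi, e'.symm, rfl⟩⟩
      · exact ⟨0, fun e' => (hl e').elim⟩
    choose w hw using hex
    have hF := optB_sound C d.1 w d.1 d.2 m4 fun l hl => by
      obtain ⟨i, hi, e1, e2⟩ := hw l hl
      refine ⟨?_, ?_, fun m hm hne => ?_⟩
      · rw [e2]
        split_ifs
        · exact (h2 i hi).1
        · exact (h2 i hi).2
      · rw [e2, e1]
        by_cases hJ : i ∈ J
        · simpa [hJ] using h4 i hi
        · simpa [hJ, hi] using (h4 i hi).symm
      · obtain ⟨j, hj, e3, -⟩ := hw m hm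
        rw [e2, e3]
        exact h3.choice _ _ hi hj fun e' => hne (by rw [e3, e1, e'])
    obtain ⟨K, k1, k2⟩ := srch_sound ks d.2 (d.1.map w) [] _ m5 hF (by simp) (by
      intro u hu v hv
      obtain ⟨l, hl, rfl⟩ := List.mem_map.1 hu
      obtain ⟨m, hm, rfl⟩ := List.mem_map.1 hv
      obtain ⟨i, hi, -, e2⟩ := hw l hl
      obtain ⟨j, hj, -, e3⟩ := hw m hm
      rw [e2, e3]
      by_cases hij : i = j
      · rw [hij]
        exact maskG.irrefl
      · exact h3.choice _ _ hi hj hij)
    have k3 : ∀ y, K.testBit y = true ↔ ∃ i ∈ I, y = a i ∨ y = b i := by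
      intro y
      rw [k1, testBit_key]
      constructor
      · rintro (hy | hy)
        · obtain ⟨l, hl, rfl⟩ := List.mem_map.1 hy
          obtain ⟨i, hi, -, e2⟩ := hw l hl
          refine ⟨i, hi, ?_⟩
          rw [e2]
          split_ifs <;> simp
        · obtain ⟨i, hi, e1, -⟩ := hw y hy
          refine ⟨i, hi, ?_⟩
          rw [e1]
          split_ifs <;> simp
      · rintro ⟨i, hi, hy⟩
        have hl : (if i ∈ J then a i else b i) ∈ d.1 :=
          List.mem_toFinset.1 (e ▸ Finset.mem_image.2 ⟨i, hi, rfl⟩)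
        obtain ⟨j, hj, e1, e2⟩ := hw _ hl
        have hij : i = j := by
          by_contra hne
          obtain ⟨n1, n2, n3, n4⟩ := h3.ne h4 hi hj hne
          split_ifs at e1 <;> contradiction
        subst hij
        have hl' := List.mem_map_of_mem (f := w) hl
        rw [e2] at hl'
        by_cases hJ : i ∈ J
        · simp only [hJ, if_true, Finset.mem_sdiff, not_true, and_false, if_false] at hl hl'
          rcases hy with rfl | rfl
          · exact Or.inr hl
          · exact Or.inl hl'
        · simp only [hJ, if_false, Finset.mem_sdiff, hi, not_false_iff, and_self, if_true]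
            at hl hl'
          rcases hy with rfl | rfl
          · exact Or.inl hl'
          · exact Or.inr hl
    refine hne ?_
    unfold phiP
    rw [sum_list_comm]
    have e2 : ((D.map Prod.fst).map fun L =>
        ∑ J ∈ I.powerset, (if tr I a b J = L.toFinset then (1 : ZMod 2) else 0)) =
        (D.map Prod.fst).map fun L =>
          if Nat.beq (Nat.land (key L) K) (key L) = true then (1 : ZMod 2) else 0 := by
      refine List.map_congr_left fun L hL => ?_
      obtain ⟨d', hd', rfl⟩ := List.mem_map.1 hL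
      refine sum_tr_eq h4 _ ((H d' hd').1.trans h1.symm) (fun x hx y hy =>
        (H d' hd').2.1 x (List.mem_toFinset.1 hx) y (List.mem_toFinset.1 hy)) _ ?_
      rw [key_sub_iff]
      simp only [k3, List.mem_toFinset]
    rw [e2, sum_ite_count _ (fun L => Nat.beq (Nat.land (key L) K) (key L)) _ fun _ _ => Iff.rfl,
      ZMod.natCast_eq_zero_iff]
    rw [← hk, List.filter_map, List.length_map] at k2
    exact Nat.dvd_of_mod_eq_zero k2

end Pool.Agent.Lib.MP_d1f823_co
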