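import Mathlib

/-!
Definitions for the statement: Kneser graphs, the reduced integral simplicial homology of the
independence complex of a graph, and cycles supported in a cross-polytopal subcomplex.
-/

namespace Pool.Agent.Lib.MP_d1f823_co

/-- The vertices of `KG(n,k)`: the `n`-element subsets of a set with `2n+k` elements. -/
abbrev Vtx (n k : ℕ) : Type := {A : Finset (Fin (2 * n + k)) // A.card = n}

/-- The Kneser graph `KG(n,k)`: two `n`-sets are adjacent when they are disjoint. -/
def kneser (n k : ℕ) : SimpleGraph (Vtx n k) where
  Adj A B := A ≠ B ∧ Disjoint A.1 B.1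
  symm := ⟨fun _ _ h => ⟨h.1.symm, h.2.symm⟩⟩
  loopless := ⟨fun _ h => h.1 rfl⟩

/-- The simplicial boundary map on integral chains.  A simplex is a finite set `s` of vertices,
oriented by the linear order of the vertices; removing the vertex `v` carries the sign
`(-1)^(number of vertices of s below v)`.  The empty set is the simplex of dimension `-1`, so this
is the augmented chain complex, all dimensions at once. -/
noncomputable def bd (V : Type) [DecidableEq V] [LinearOrder V] :
    (Finset V →₀ ℤ) →ₗ[ℤ] (Finset V →₀ ℤ) :=
  Finsupp.linearCombination ℤ fun s =>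
    ∑ v ∈ s, ((-1 : ℤ) ^ (s.filter fun u => u < v).card) • Finsupp.single (s.erase v) (1 : ℤ)

/-- Chains of the independence complex of `G`: those supported on independent sets. -/
noncomputable def chains {V : Type} (G : SimpleGraph V) : Submodule ℤ (Finset V →₀ ℤ) :=
  Finsupp.supported ℤ ℤ {s : Finset V | G.IsIndepSet (s : Set V)}

/-- Cycles of the independence complex of `G`. -/
noncomputable def cycles {V : Type} [DecidableEq V] [LinearOrder V] (G : SimpleGraph V) :
    Submodule ℤ (Finset V →₀ ℤ) :=
  chains G ⊓ LinearMap.ker (bd V)

/-- Boundaries of the independence complex of `G`. -/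
noncomputable def boundaries {V : Type} [DecidableEq V] [LinearOrder V] (G : SimpleGraph V) :
    Submodule ℤ (Finset V →₀ ℤ) :=
  (chains G).map (bd V)

/-- The total reduced integral homology of the independence complex of `G`:
cycles modulo boundaries. -/
abbrev Homology {V : Type} [DecidableEq V] [LinearOrder V] (G : SimpleGraph V) : Type :=
  cycles G ⧸ (boundaries G).comap (cycles G).subtype

/-- The graph on `2d` vertices in which distinct `i, j` are adjacent iff `|i - j| ≠ d`.
Its clique complex is the boundary `C_d` of the `d`-dimensional cross-polytope. -/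
def crossGraph (d : ℕ) : SimpleGraph (Fin (2 * d)) where
  Adj i j := i ≠ j ∧ i.val + d ≠ j.val ∧ j.val + d ≠ i.val
  symm := ⟨fun _ _ h => ⟨h.1.symm, h.2.2, h.2.1⟩⟩
  loopless := ⟨fun _ h => h.1 rfl⟩

/-- The chain `c` is supported in a single cross-polytopal subcomplex of the independence complex
of `G`: for some `d ≥ 1` an injective vertex map `f` sends every simplex of `C_d` to a simplex of
the independence complex, and every simplex of `c` is the image of a simplex of `C_d`. -/
def CrossSupported {V : Type} (G : SimpleGraph V) (c : Finset V →₀ ℤ) : Prop :=
  ∃ d : ℕ, 1 ≤ d ∧ ∃ f : Fin (2 * d) ↪ V,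
    (∀ t : Finset (Fin (2 * d)), (crossGraph d).IsClique (t : Set (Fin (2 * d))) →
      G.IsIndepSet ((t.map f : Finset V) : Set V)) ∧
    ∀ s ∈ c.support, ∃ t : Finset (Fin (2 * d)),
      (crossGraph d).IsClique (t : Set (Fin (2 * d))) ∧ s = t.map f

/-- The homology classes represented by a cycle supported in a single cross-polytopal
subcomplex. -/
def crossClasses {V : Type} [DecidableEq V] [LinearOrder V] (G : SimpleGraph V) :
    Set (Homology G) :=
  {h | ∃ c : cycles G, CrossSupported G c.1 ∧ h = Submodule.Quotient.mk c}

/-- The subgroup of homology generated by the classes in `crossClasses G`. -/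
def crossSpan {V : Type} [DecidableEq V] [LinearOrder V] (G : SimpleGraph V) :
    Set (Homology G) :=
  Submodule.span ℤ (crossClasses G)

/-- The homology class of a cycle. -/
noncomputable def cls {V : Type} [DecidableEq V] [LinearOrder V] (G : SimpleGraph V) (z : cycles G) :
    Homology G :=
  Submodule.Quotient.mk z

/-- Some cycle of the independence complex of `G`, all of whose simplices have the same number of
vertices, has its homology class outside the subgroup generated by the classes of cycles
supported in a single cross-polytopal subcomplex. -/
def NotCrossGenerated {V : Type} [DecidableEq V] [LinearOrder V] (G : SimpleGraph V) : Prop :=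
  ∃ (q : ℕ) (z : cycles G), (∀ s ∈ z.1.support, s.card = q) ∧ cls G z ∉ crossSpan G

end Pool.Agent.Lib.MP_d1f823_co
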