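import Pool.Agent.Lib.MP_d1f823_co.Good

/-! Suspension of cycles, and the passage from a good cocycle to the homology statement. -/

namespace Pool.Agent.Lib.MP_d1f823_co

set_option linter.unusedSectionVars false

open Finset

variable {V : Type} [DecidableEq V]

/-- Faces with `q` vertices, all of which satisfy `Q`. -/
def Supp (G : SimpleGraph V) (Q : V → Prop) (q : ℕ) (s : Finset V) : Prop :=
  s.card = q ∧ (∀ x ∈ s, Q x) ∧ ∀ x ∈ s, ∀ y ∈ s, ¬ G.Adj x y

theorem HasCyc.mono {P P' : Finset V → Prop} {φ φ' : Finset V → ZMod 2} (h : HasCyc P φ)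
    (H : ∀ s, P s → P' s ∧ φ' s = φ s) : HasCyc P' φ' := by
  obtain ⟨o, c, h1, h2, h3⟩ := h
  exact ⟨o, c, h1, fun s hs => (H s (h2 s hs)).1,
    by rwa [pr_congr _ φ c fun s hs => (H s (h2 s hs)).2]⟩

theorem Supp.insert {G : SimpleGraph V} {Q Q' : V → Prop} {q : ℕ} {s : Finset V}
    (h : Supp G Q q s) {v : V} (hv : v ∉ s) (hQ : ∀ x, Q x → Q' x) (hv' : Q' v)
    (hA : ∀ x, Q x → ¬ G.Adj x v) : Supp G Q' (q + 1) (insert v s) := by
  refine ⟨by rw [Finset.card_insert_of_notMem hv, h.1], fun x hx => ?_, fun x hx y hy => ?_⟩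
  · rcases Finset.mem_insert.1 hx with rfl | hx
    · exact hv'
    · exact hQ x (h.2.1 x hx)
  · rcases Finset.mem_insert.1 hx with e1 | h1 <;> rcases Finset.mem_insert.1 hy with e2 | h2
    · rw [e1, e2]
      exact G.irrefl
    · rw [e1]
      exact fun e => hA y (h.2.1 y h2) e.symm
    · rw [e2]
      exact hA x (h.2.1 x h1)
    · exact h.2.2 x h1 y h2

theorem HasCyc.susp {G : SimpleGraph V} {Q : V → Prop} {q : ℕ} {φ : Finset V → ZMod 2}
    (h : HasCyc (Supp G Q q) φ) {ι : Type} [DecidableEq ι] (a b : ι → V) (I : Finset ι) :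
    Cross G I a b → (∀ i ∈ I, G.Adj (a i) (b i)) →
    (∀ i ∈ I, ∀ x, Q x → ¬ G.Adj x (a i) ∧ ¬ G.Adj x (b i)) →
    HasCyc (Supp G (fun x => Q x ∨ ∃ i ∈ I, x = a i ∨ x = b i) (q + I.card))
      fun s => if I.image a ⊆ s then φ (s \ I.image a) else 0 := by
  induction I using Finset.induction_on with
  | empty =>
    intro _ _ _
    exact h.mono fun s hs => ⟨⟨by simpa using hs.1, fun x hx => Or.inl (hs.2.1 x hx), hs.2.2⟩,
      by simp⟩
  | insert i K hK ih =>
    intro h1 h2 h3
    have hi := Finset.mem_insert_self i K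
    have ih' := ih (h1.mono (Finset.subset_insert _ _))
      (fun j hj => h2 j (Finset.mem_insert_of_mem hj))
      (fun j hj => h3 j (Finset.mem_insert_of_mem hj))
    have hA : ∀ x, (Q x ∨ ∃ j ∈ K, x = a j ∨ x = b j) →
        ¬ G.Adj x (a i) ∧ ¬ G.Adj x (b i) := by
      rintro x (hx | ⟨j, hj, hx⟩)
      · exact h3 i hi x hx
      · have hj' := Finset.mem_insert_of_mem (b := i) hj
        have hne : j ≠ i := fun e => hK (e ▸ hj)
        obtain ⟨m1, m2, m3⟩ := h1 j hj' i hi hne
        obtain ⟨-, m4, -⟩ := h1 i hi j hj' hne.symm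
        rcases hx with rfl | rfl
        · exact ⟨m1, m2⟩
        · exact ⟨fun e => m4 e.symm, m3⟩
    have hQ : ∀ x, (Q x ∨ ∃ j ∈ K, x = a j ∨ x = b j) →
        (Q x ∨ ∃ j ∈ insert i K, x = a j ∨ x = b j) := by
      rintro x (hx | ⟨j, hj, hx⟩)
      · exact Or.inl hx
      · exact Or.inr ⟨j, Finset.mem_insert_of_mem hj, hx⟩
    rw [Finset.card_insert_of_notMem hK, ← add_assoc]
    refine ih'.susp1 (a i) (b i) _ _ fun s hs => ?_
    have ha : a i ∉ s := fun e => (hA _ (hs.2.1 _ e)).2 (h2 i hi)
    have hb : b i ∉ s := fun e => (hA _ (hs.2.1 _ e)).1 (h2 i hi).symm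
    have hab := (h2 i hi).ne
    have haK : a i ∉ K.image a := fun e => by
      obtain ⟨j, hj, e⟩ := Finset.mem_image.1 e
      exact (hA (a i) (Or.inr ⟨j, hj, Or.inl e.symm⟩)).2 (h2 i hi)
    refine ⟨ha, hb, hs.insert ha hQ (Or.inr ⟨i, hi, Or.inl rfl⟩) fun x hx => (hA x hx).1,
      hs.insert hb hQ (Or.inr ⟨i, hi, Or.inr rfl⟩) fun x hx => (hA x hx).2, ?_, ?_⟩
    · rw [Finset.image_insert]
      have e1 : insert (a i) s \ insert (a i) (K.image a) = s \ K.image a := by
        ext x
        simp only [Finset.mem_sdiff, Finset.mem_insert]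
        constructor
        · tauto
        · rintro ⟨m1, m2⟩
          exact ⟨Or.inr m1, fun e => e.elim (fun e => ha (e ▸ m1)) m2⟩
      have e2 : insert (a i) (K.image a) ⊆ insert (a i) s ↔ K.image a ⊆ s :=
        Finset.insert_subset_insert_iff haK
      simp only [e1, e2]
    · refine if_neg fun e => ?_
      have := e (Finset.mem_image_of_mem a hi)
      simp [hab, ha] at this

/-- Faces of the cross-polytope with pairs `a i, b i`. -/
def XF {ι : Type} (I : Finset ι) (a b : ι → V) (s : Finset V) : Prop :=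
  (∀ x ∈ s, ∃ i ∈ I, x = a i ∨ x = b i) ∧ ∀ i ∈ I, ¬ (a i ∈ s ∧ b i ∈ s)

theorem cobdry {ι : Type} [DecidableEq ι] (a b : ι → V) (ha : Function.Injective a)
    (hb : Function.Injective b) (hab : ∀ i j, a i ≠ b j) (I : Finset ι) :
    ∀ φ : Finset V → ZMod 2, (∀ t, XF I a b t → ∑ v ∈ t, φ (t.erase v) = 0) →
      (∀ K ⊆ I, ∑ J ∈ K.powerset, φ (tr K a b J) = 0) →
      ∃ η : Finset V → ZMod 2, ∀ s, XF I a b s → φ s = ∑ v ∈ s, η (s.erase v) := by
  induction I using Finset.induction_on with
  | empty =>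
    intro φ _ h2
    refine ⟨0, fun s hs => ?_⟩
    have : s = ∅ := Finset.eq_empty_of_forall_notMem fun x hx => by simpa using hs.1 x hx
    subst this
    simpa [tr] using h2 ∅ (Finset.Subset.refl _)
  | insert i K hK ih =>
    intro φ h1 h2
    have hi := Finset.mem_insert_self i K
    have hnot : ∀ t, XF K a b t → a i ∉ t ∧ b i ∉ t := by
      intro t ht
      constructor <;> intro e <;> obtain ⟨j, hj, e' | e'⟩ := ht.1 _ e
      · exact hK (ha e' ▸ hj)
      · exact hab _ _ e'
      · exact hab _ _ e'.symm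
      · exact hK (hb e' ▸ hj)
    have hins : ∀ t, XF K a b t → ∀ w, (w = a i ∨ w = b i) →
        ∑ v ∈ t, φ (insert w (t.erase v)) = φ t := by
      intro t ht w hw
      obtain ⟨n1, n2⟩ := hnot t ht
      have hwt : w ∉ t := by rcases hw with rfl | rfl <;> assumption
      have := h1 (insert w t) ⟨?_, ?_⟩
      · rw [Finset.sum_insert hwt, Finset.erase_insert hwt] at this
        have e : ∑ v ∈ t, φ ((insert w t).erase v) = ∑ v ∈ t, φ (insert w (t.erase v)) :=
          Finset.sum_congr rfl fun v hv => by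
            rw [Finset.erase_insert_of_ne fun e => hwt (by rw [e]; exact hv)]
        rw [e] at this
        linear_combination this - add_self2 (φ t)
      · intro x hx
        rcases Finset.mem_insert.1 hx with rfl | hx
        · exact ⟨i, hi, hw⟩
        · obtain ⟨j, hj, e⟩ := ht.1 x hx
          exact ⟨j, Finset.mem_insert_of_mem hj, e⟩
      · rintro j hj ⟨m1, m2⟩
        rcases Finset.mem_insert.1 hj with rfl | hj
        · rcases hw with rfl | rfl
          · simp [n2, (hab j j).symm] at m2
          · simp [n1, hab j j] at m1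
        · have hne : j ≠ i := fun e => hK (e ▸ hj)
          refine ht.2 j hj ⟨?_, ?_⟩
          · rcases hw with rfl | rfl
            · simpa [ha.ne hne] using m1
            · simpa [hab j i] using m1
          · rcases hw with rfl | rfl
            · simpa [(hab i j).symm] using m2
            · simpa [hb.ne hne] using m2
    obtain ⟨η, hη⟩ := ih (fun s => φ (insert (a i) s) + φ (insert (b i) s))
      (fun t ht => by
        rw [Finset.sum_add_distrib, hins t ht _ (Or.inl rfl), hins t ht _ (Or.inr rfl), add_self2])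
      (fun L hL => by
        rw [← sum_tr_insert (fun e => hK (hL e))]
        exact h2 _ (Finset.insert_subset_insert i hL))
    have hres : ∀ s, XF (insert i K) a b s → ∀ t ⊆ s, a i ∉ t → b i ∉ t → XF K a b t := by
      intro s hs t ht n1 n2
      refine ⟨fun x hx => ?_, fun j hj e =>
        hs.2 j (Finset.mem_insert_of_mem hj) ⟨ht e.1, ht e.2⟩⟩
      obtain ⟨j, hj, e⟩ := hs.1 x (ht hx)
      rcases Finset.mem_insert.1 hj with rfl | hj
      · rcases e with rfl | rfl <;> contradiction
      · exact ⟨j, hj, e⟩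
    refine ⟨fun s => if a i ∈ s then 0 else if b i ∈ s then η (s.erase (b i))
      else φ (insert (a i) s), fun s hs => ?_⟩
    by_cases n1 : a i ∈ s
    · have n2 : b i ∉ s := fun e => hs.2 i hi ⟨n1, e⟩
      rw [← Finset.add_sum_erase s _ n1, Finset.sum_eq_zero, add_zero]
      · simp [n2, Finset.insert_erase n1]
      · intro v hv
        exact if_pos (Finset.mem_erase.2 ⟨(Finset.mem_erase.1 hv).1.symm, n1⟩)
    by_cases n2 : b i ∈ s
    · have n3 : a i ∉ s.erase (b i) := fun e => n1 (Finset.mem_of_mem_erase e)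
      have := hη (s.erase (b i)) (hres s hs _ (Finset.erase_subset _ _) n3
        (Finset.notMem_erase _ _))
      rw [Finset.insert_erase n2] at this
      rw [← Finset.add_sum_erase s _ n2]
      have e : ∑ v ∈ s.erase (b i), (if a i ∈ s.erase v then 0 else if b i ∈ s.erase v then
          η ((s.erase v).erase (b i)) else φ (insert (a i) (s.erase v))) =
          ∑ v ∈ s.erase (b i), η ((s.erase (b i)).erase v) := by
        refine Finset.sum_congr rfl fun v hv => ?_
        rw [if_neg fun e => n1 (Finset.mem_of_mem_erase e),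
          if_pos (Finset.mem_erase.2 ⟨(Finset.mem_erase.1 hv).1.symm, n2⟩),
          Finset.erase_right_comm]
      simp only [e, n3, if_false, Finset.notMem_erase]
      linear_combination this - add_self2 (φ (insert (a i) (s.erase (b i))))
    · rw [← hins s (hres s hs s (Finset.Subset.refl _) n1 n2) _ (Or.inl rfl)]
      refine Finset.sum_congr rfl fun v _ => ?_
      beta_reduce
      rw [if_neg fun e => n1 (Finset.mem_of_mem_erase e),
        if_neg fun e => n2 (Finset.mem_of_mem_erase e)]

theorem indep_iff (G : SimpleGraph V) (s : Finset V) :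
    G.IsIndepSet (s : Set V) ↔ ∀ x ∈ s, ∀ y ∈ s, ¬ G.Adj x y := by
  constructor
  · intro h x hx y hy e
    exact h hx hy e.ne e
  · intro h x hx y hy _
    exact h x hx y hy

theorem pr_cross [LinearOrder V] {G : SimpleGraph V} {φ : Finset V → ZMod 2} {q : ℕ}
    (h : Good G (fun _ => True) φ q) (c : Finset V →₀ ℤ) (hc : bd V c = 0)
    (hX : CrossSupported G c) : pr φ c = 0 := by
  obtain ⟨d, -, f, h1, h2⟩ := hX
  let a : Fin d → V := fun i => f ⟨i, by omega⟩
  let b : Fin d → V := fun i => f ⟨i + d, by omega⟩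
  have ha : Function.Injective a := fun i j e => by
    have := congrArg Fin.val (f.injective e)
    exact Fin.ext this
  have hb : Function.Injective b := fun i j e => by
    have := congrArg Fin.val (f.injective e)
    exact Fin.ext (by simpa using this)
  have hab : ∀ i j, a i ≠ b j := fun i j e => by
    have := congrArg Fin.val (f.injective e)
    simp only at this
    omega
  have hpair : ∀ u v : Fin (2 * d), u.val + d ≠ v.val → v.val + d ≠ u.val →
      ¬ G.Adj (f u) (f v) := by
    intro u v m1 m2 e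
    have huv : u ≠ v := fun e' => e.ne (by rw [e'])
    have := h1 {u, v} (by
      rw [Finset.coe_pair, SimpleGraph.isClique_pair]
      exact fun _ => ⟨huv, m1, m2⟩)
    exact (indep_iff G _).1 this (f u) (by simp) (f v) (by simp) e
  have hC : Cross G Finset.univ a b := by
    intro i _ j _ hij
    have : i.val ≠ j.val := fun e => hij (Fin.ext e)
    refine ⟨hpair _ _ ?_ ?_, hpair _ _ ?_ ?_, hpair _ _ ?_ ?_⟩ <;> simp only <;> omega
  obtain ⟨η, hη⟩ := cobdry a b ha hb hab Finset.univ φ
    (fun t ht => h.coc t (fun _ _ => trivial) fun x hx y hy => by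
      obtain ⟨i, -, e1⟩ := ht.1 x hx
      obtain ⟨j, -, e2⟩ := ht.1 y hy
      by_cases hij : i = j
      · subst hij
        rcases e1 with rfl | rfl <;> rcases e2 with rfl | rfl
        · exact G.irrefl
        · exact (ht.2 i (Finset.mem_univ _) ⟨hx, hy⟩).elim
        · exact (ht.2 i (Finset.mem_univ _) ⟨hy, hx⟩).elim
        · exact G.irrefl
      · obtain ⟨m1, m2, m3⟩ := hC i (Finset.mem_univ _) j (Finset.mem_univ _) hij
        obtain ⟨-, m4, -⟩ := hC j (Finset.mem_univ _) i (Finset.mem_univ _) fun e => hij e.symm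
        rcases e1 with rfl | rfl <;> rcases e2 with rfl | rfl
        · exact m1
        · exact m2
        · exact fun e => m4 e.symm
        · exact m3)
    (fun K _ => by
      by_cases hK : K.card = q
      · exact h.xp_gen K a b hK (fun _ _ => ⟨trivial, trivial⟩) (hC.mono (Finset.subset_univ _))
      · refine Finset.sum_eq_zero fun J _ => ?_
        by_contra hne
        refine hK ?_
        rw [← h.deg _ hne]
        refine (Finset.card_image_of_injOn fun i _ j _ e => ?_).symm
        split_ifs at e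
        · exact ha e
        · exact (hab _ _ e).elim
        · exact (hab _ _ e.symm).elim
        · exact hb e)
  rw [pr_congr φ (fun s => ∑ v ∈ s, η (s.erase v)) c, ← pr_bd, hc, map_zero]
  intro s hs
  obtain ⟨t, ht, rfl⟩ := h2 s hs
  refine hη _ ⟨fun x hx => ?_, fun i _ e => ?_⟩
  · obtain ⟨u, -, rfl⟩ := Finset.mem_map.1 hx
    by_cases hu : u.val < d
    · exact ⟨⟨u, hu⟩, Finset.mem_univ _, Or.inl rfl⟩
    · refine ⟨⟨u - d, by omega⟩, Finset.mem_univ _, Or.inr ?_⟩
      congr 1
      exact Fin.ext (by simp only; omega)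
  · have m1 := (Finset.mem_map' f).1 e.1
    have m2 := (Finset.mem_map' f).1 e.2
    have := ht m1 m2 (fun e' => hab i i (congrArg f e'))
    exact this.2.1 rfl

theorem not_mem_span [LinearOrder V] {G : SimpleGraph V} {φ : Finset V → ZMod 2} {q : ℕ}
    (h : Good G (fun _ => True) φ q) (z : cycles G) (hz : pr φ z.1 ≠ 0) :
    (Submodule.Quotient.mk z : Homology G) ∉ Submodule.span ℤ (crossClasses G) := by
  let Ψ : Homology G →ₗ[ℤ] ZMod 2 :=
    Submodule.liftQ _ ((pr φ).comp (cycles G).subtype) (by
      rintro c ⟨w, hw, e⟩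
      rw [LinearMap.mem_ker, LinearMap.comp_apply, ← e, pr_bd]
      exact pr_zero _ _ fun s hs => h.coc s (fun _ _ => trivial)
        ((indep_iff G s).1 ((Finsupp.mem_supported ℤ w).1 hw hs)))
  have hle : Submodule.span ℤ (crossClasses G) ≤ LinearMap.ker Ψ := by
    rw [Submodule.span_le]
    rintro _ ⟨c, hc, rfl⟩
    exact pr_cross h c.1 c.2.2 hc
  exact fun e => hz (hle e)

end Pool.Agent.Lib.MP_d1f823_co
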