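import Pool.Agent.Lib.MP_d1f823_co.Chain

/-! Mod 2 cocycles that vanish on all cross-polytopes; pull-backs along maps and links. -/

namespace Pool.Agent.Lib.MP_d1f823_co

set_option linter.unusedSectionVars false

open Finset

variable {V : Type} [DecidableEq V]

/-- The facet of the cross-polytope with pairs `a i, b i` choosing `a i` exactly for `i ∈ J`. -/
def tr {ι : Type} [DecidableEq ι] (I : Finset ι) (a b : ι → V) (J : Finset ι) : Finset V :=
  I.image fun i => if i ∈ J then a i else b i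

def Cross (G : SimpleGraph V) {ι : Type} (I : Finset ι) (a b : ι → V) : Prop :=
  ∀ i ∈ I, ∀ j ∈ I, i ≠ j → ¬ G.Adj (a i) (a j) ∧ ¬ G.Adj (a i) (b j) ∧ ¬ G.Adj (b i) (b j)

structure Good (G : SimpleGraph V) (U : V → Prop) (φ : Finset V → ZMod 2) (q : ℕ) : Prop where
  deg : ∀ s, φ s ≠ 0 → s.card = q
  coc : ∀ t : Finset V, (∀ x ∈ t, U x) → (∀ x ∈ t, ∀ y ∈ t, ¬ G.Adj x y) →
    ∑ v ∈ t, φ (t.erase v) = 0
  xp : ∀ (ι : Type) [DecidableEq ι] (I : Finset ι) (a b : ι → V), I.card = q →
    (∀ i ∈ I, U (a i) ∧ U (b i)) → Cross G I a b → (∀ i ∈ I, G.Adj (a i) (b i)) →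
    ∑ J ∈ I.powerset, φ (tr I a b J) = 0

theorem Good.mono {G : SimpleGraph V} {U U' : V → Prop} {φ : Finset V → ZMod 2} {q : ℕ}
    (h : Good G U φ q) (hU : ∀ x, U' x → U x) : Good G U' φ q :=
  ⟨h.deg, fun t h1 h2 => h.coc t (fun x hx => hU x (h1 x hx)) h2,
    fun ι _ I a b h1 h2 h3 h4 =>
      h.xp ι I a b h1 (fun i hi => ⟨hU _ (h2 i hi).1, hU _ (h2 i hi).2⟩) h3 h4⟩

theorem add_self2 (x : ZMod 2) : x + x = 0 := CharTwo.add_self_eq_zero x

section tr

variable {ι : Type} [DecidableEq ι] {I : Finset ι} {a b : ι → V}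

theorem tr_insert_not {i : ι} (hi : i ∉ I) {J : Finset ι} (hJ : J ⊆ I) :
    tr (insert i I) a b J = insert (b i) (tr I a b J) := by
  unfold tr
  rw [Finset.image_insert, if_neg fun h => hi (hJ h)]

theorem tr_insert_mem {i : ι} (hi : i ∉ I) (J : Finset ι) :
    tr (insert i I) a b (insert i J) = insert (a i) (tr I a b J) := by
  unfold tr
  rw [Finset.image_insert, if_pos (Finset.mem_insert_self _ _)]
  congr 1
  refine Finset.image_congr fun j hj => ?_
  have : j ≠ i := fun h => hi (h ▸ hj)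
  simp [this]

theorem sum_tr_insert {i : ι} (hi : i ∉ I) (φ : Finset V → ZMod 2) :
    ∑ J ∈ (insert i I).powerset, φ (tr (insert i I) a b J) =
      ∑ J ∈ I.powerset, (φ (insert (a i) (tr I a b J)) + φ (insert (b i) (tr I a b J))) := by
  rw [Finset.sum_powerset_insert hi, Finset.sum_add_distrib, add_comm]
  congr 1
  · exact Finset.sum_congr rfl fun J _ => by rw [tr_insert_mem hi]
  · exact Finset.sum_congr rfl fun J hJ => by rw [tr_insert_not hi (Finset.mem_powerset.1 hJ)]

theorem mem_tr {J : Finset ι} {x : V} (h : x ∈ tr I a b J) :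
    ∃ i ∈ I, (i ∈ J ∧ x = a i) ∨ (i ∉ J ∧ x = b i) := by
  obtain ⟨i, hi, rfl⟩ := Finset.mem_image.1 h
  refine ⟨i, hi, ?_⟩
  by_cases hJ : i ∈ J <;> simp [hJ]

theorem Cross.mono {G : SimpleGraph V} (h : Cross G I a b) {I' : Finset ι} (hI : I' ⊆ I) :
    Cross G I' a b := fun i hi j hj => h i (hI hi) j (hI hj)

theorem Cross.choice {G : SimpleGraph V} (h : Cross G I a b) (J J' : Finset ι) {i j : ι}
    (hi : i ∈ I) (hj : j ∈ I) (hij : i ≠ j) :
    ¬ G.Adj (if i ∈ J then a i else b i) (if j ∈ J' then a j else b j) := by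
  split_ifs
  · exact (h i hi j hj hij).1
  · exact (h i hi j hj hij).2.1
  · exact fun e => (h j hj i hi hij.symm).2.1 e.symm
  · exact (h i hi j hj hij).2.2

theorem Cross.ne {G : SimpleGraph V} (h : Cross G I a b) (hab : ∀ i ∈ I, G.Adj (a i) (b i))
    {i j : ι} (hi : i ∈ I) (hj : j ∈ I) (hij : i ≠ j) :
    a i ≠ a j ∧ a i ≠ b j ∧ b i ≠ a j ∧ b i ≠ b j := by
  refine ⟨fun e => ?_, fun e => ?_, fun e => ?_, fun e => ?_⟩
  · exact (h j hj i hi hij.symm).2.1 (e ▸ hab i hi)
  · exact (h j hj i hi hij.symm).2.2 (e ▸ hab i hi)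
  · exact (h i hi j hj hij).1 (e ▸ hab i hi)
  · exact (h i hi j hj hij).2.1 (e ▸ hab i hi)

theorem Cross.card_tr {G : SimpleGraph V} (h : Cross G I a b)
    (hab : ∀ i ∈ I, G.Adj (a i) (b i)) (J : Finset ι) : (tr I a b J).card = I.card := by
  refine Finset.card_image_of_injOn fun i hi j hj e => ?_
  by_contra hij
  obtain ⟨h1, h2, h3, h4⟩ := h.ne hab hi hj hij
  split_ifs at e <;> contradiction

theorem Cross.not_mem_tr {G : SimpleGraph V} {i : ι} (hi : i ∉ I) (h : Cross G (insert i I) a b)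
    (hab : ∀ j ∈ insert i I, G.Adj (a j) (b j)) (J : Finset ι) :
    a i ∉ tr I a b J ∧ b i ∉ tr I a b J := by
  constructor <;> intro hm <;> obtain ⟨j, hj, h' | h'⟩ := mem_tr hm <;>
    obtain ⟨h1, h2, h3, h4⟩ := h.ne hab (Finset.mem_insert_self i I)
      (Finset.mem_insert_of_mem hj) (fun e => hi (e ▸ hj)) <;> tauto

end tr

theorem Good.coc_idx {G : SimpleGraph V} {U : V → Prop} {φ : Finset V → ZMod 2} {q : ℕ}
    (h : Good G U φ q) {ι : Type} [DecidableEq ι] (I : Finset ι) (g : ι → V)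
    (hI : I.card = q + 1) (hU : ∀ i ∈ I, U (g i))
    (hA : ∀ i ∈ I, ∀ j ∈ I, ¬ G.Adj (g i) (g j)) :
    ∑ k ∈ I, φ ((I.erase k).image g) = 0 := by
  by_cases hinj : Set.InjOn g I
  · have := h.coc (I.image g) (by simpa using hU) (by simpa using hA)
    rw [Finset.sum_image hinj] at this
    rw [← this]
    refine Finset.sum_congr rfl fun k hk => ?_
    congr 1
    ext w
    simp only [Finset.mem_erase, Finset.mem_image]
    constructor
    · rintro ⟨u, ⟨h, hu⟩, rfl⟩
      exact ⟨fun e => h (hinj hu hk e), u, hu, rfl⟩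
    · rintro ⟨h, u, hu, rfl⟩
      exact ⟨u, ⟨fun e => h (e ▸ rfl), hu⟩, rfl⟩
  · simp only [Set.InjOn, not_forall] at hinj
    obtain ⟨i, hi, j, hj, e, hij⟩ := hinj
    have key : ∀ (K : Finset ι) (u w : ι), u ≠ w → w ∈ K → g u = g w →
        (K.erase u).image g = K.image g := by
      intro K u w huw hw e
      ext x
      simp only [Finset.mem_erase, Finset.mem_image]
      constructor
      · rintro ⟨y, ⟨-, hy⟩, rfl⟩
        exact ⟨y, hy, rfl⟩
      · rintro ⟨y, hy, rfl⟩
        by_cases hyu : y = u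
        · exact ⟨w, ⟨huw.symm, hw⟩, by rw [hyu, e]⟩
        · exact ⟨y, ⟨hyu, hy⟩, rfl⟩
    have hj' : j ∈ I.erase i := Finset.mem_erase.2 ⟨fun e => hij e.symm, hj⟩
    rw [← Finset.add_sum_erase I _ hi, ← Finset.add_sum_erase _ _ hj', key I i j hij hj e,
      key I j i (fun e => hij e.symm) hi e.symm, ← add_assoc, add_self2, zero_add]
    refine Finset.sum_eq_zero fun k hk => ?_
    by_contra hne
    have h1 := h.deg _ hne
    obtain ⟨hkj, hk⟩ := Finset.mem_erase.1 hk
    obtain ⟨hki, hk⟩ := Finset.mem_erase.1 hk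
    have hjk : j ∈ I.erase k := Finset.mem_erase.2 ⟨hkj.symm, hj⟩
    have hik : i ∈ I.erase k := Finset.mem_erase.2 ⟨hki.symm, hi⟩
    rw [← key (I.erase k) i j hij hjk e] at h1
    have h2 := Finset.card_image_le (s := (I.erase k).erase i) (f := g)
    have h3 := Finset.card_erase_add_one hik
    have h4 := Finset.card_erase_add_one hk
    omega

theorem Good.coc_idx' {G : SimpleGraph V} {U : V → Prop} {φ : Finset V → ZMod 2} {q : ℕ}
    (h : Good G U φ q) {ι : Type} [DecidableEq ι] (I : Finset ι) (g : ι → V) (x : V)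
    (hI : I.card = q) (hU : ∀ i ∈ I, U (g i)) (hx : U x)
    (hA : ∀ i ∈ I, ∀ j ∈ I, ¬ G.Adj (g i) (g j)) (hA' : ∀ i ∈ I, ¬ G.Adj x (g i)) :
    φ (I.image g) + ∑ k ∈ I, φ (insert x ((I.erase k).image g)) = 0 := by
  have := h.coc_idx (Finset.insertNone I) (fun o => o.elim x g) (by simp [hI])
    (by
      rintro (_ | i) hi
      · exact hx
      · exact hU i (by simpa using hi))
    (by
      rintro (_ | i) hi (_ | j) hj
      · exact G.irrefl
      · exact hA' j (by simpa using hj)
      · exact fun e => hA' i (by simpa using hi) e.symm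
      · exact hA i (by simpa using hi) j (by simpa using hj))
  rw [Finset.sum_insertNone] at this
  rw [← this]
  congr 1
  · congr 1
    ext w
    simp only [Finset.mem_image, Finset.mem_erase]
    constructor
    · rintro ⟨i, hi, rfl⟩
      exact ⟨some i, ⟨by simp, by simpa using hi⟩, rfl⟩
    · rintro ⟨_ | i, ⟨h1, h2⟩, rfl⟩
      · exact (h1 rfl).elim
      · exact ⟨i, by simpa using h2, rfl⟩
  · refine Finset.sum_congr rfl fun k _ => ?_
    congr 1
    ext w
    simp only [Finset.mem_image, Finset.mem_erase, Finset.mem_insert]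
    constructor
    · rintro (rfl | ⟨i, ⟨h1, hi⟩, rfl⟩)
      · exact ⟨none, ⟨by simp, by simp⟩, rfl⟩
      · exact ⟨some i, ⟨by simpa using h1, by simpa using hi⟩, rfl⟩
    · rintro ⟨_ | i, ⟨h1, h2⟩, rfl⟩
      · exact Or.inl rfl
      · exact Or.inr ⟨i, ⟨by simpa using h1, by simpa using h2⟩, rfl⟩

theorem Good.xp_gen {G : SimpleGraph V} {U : V → Prop} {φ : Finset V → ZMod 2} {q : ℕ}
    (h : Good G U φ q) {ι : Type} [DecidableEq ι] (I : Finset ι) (a b : ι → V)
    (hI : I.card = q) (hU : ∀ i ∈ I, U (a i) ∧ U (b i)) (hC : Cross G I a b) :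
    ∑ J ∈ I.powerset, φ (tr I a b J) = 0 := by
  by_cases hab : ∀ i ∈ I, G.Adj (a i) (b i)
  · exact h.xp ι I a b hI hU hC hab
  push Not at hab
  obtain ⟨i, hi, hab⟩ := hab
  obtain ⟨K, hK, rfl⟩ : ∃ K, i ∉ K ∧ I = insert i K :=
    ⟨I.erase i, Finset.notMem_erase _ _, (Finset.insert_erase hi).symm⟩
  rw [sum_tr_insert hK]
  have key : ∀ J ∈ K.powerset,
      φ (insert (a i) (tr K a b J)) + φ (insert (b i) (tr K a b J)) =
        ∑ k ∈ K, φ (insert (a i) (insert (b i) (tr (K.erase k) a b J))) := by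
    intro J hJ
    have hJ' := Finset.mem_powerset.1 hJ
    have hiJ : i ∉ J := fun e => hK (hJ' e)
    have := h.coc_idx' (insert i K) (fun j => if j ∈ J then a j else b j) (a i) hI
      (fun j hj => by
        split_ifs
        · exact (hU j hj).1
        · exact (hU j hj).2) (hU i hi).1
      (fun j hj k hk => by
        by_cases e : j = k
        · subst e
          exact G.irrefl
        · exact hC.choice J J hj hk e)
      (fun j hj => by
        by_cases e : i = j
        · subst e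
          simpa [hiJ] using hab
        · have := hC.choice {i} J hi hj e
          simpa using this)
    rw [Finset.sum_insert hK, Finset.erase_insert hK] at this
    have e1 : (insert i K).image (fun j => if j ∈ J then a j else b j) =
        insert (b i) (tr K a b J) := tr_insert_not hK hJ'
    rw [e1] at this
    have e2 : ∀ k ∈ K, φ (insert (a i) (((insert i K).erase k).image
        fun j => if j ∈ J then a j else b j)) =
        φ (insert (a i) (insert (b i) (tr (K.erase k) a b J))) := by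
      intro k hk
      rw [Finset.erase_insert_of_ne (fun e => hK (by rw [e]; exact hk)), Finset.image_insert,
        if_neg hiJ]
      rfl
    rw [Finset.sum_congr rfl e2] at this
    have e3 := add_self2 (∑ k ∈ K, φ (insert (a i) (insert (b i) (tr (K.erase k) a b J))))
    have e4 : K.image (fun j => if j ∈ J then a j else b j) = tr K a b J := rfl
    rw [e4] at this
    linear_combination this - e3
  rw [Finset.sum_congr rfl key, Finset.sum_comm]
  refine Finset.sum_eq_zero fun k hk => ?_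
  have hk' : K = insert k (K.erase k) := (Finset.insert_erase hk).symm
  have e5 : K.powerset = (insert k (K.erase k)).powerset := by rw [← hk']
  rw [e5, Finset.sum_powerset_insert (Finset.notMem_erase k K), ← Finset.sum_add_distrib]
  refine Finset.sum_eq_zero fun J _ => ?_
  have : tr (K.erase k) a b (insert k J) = tr (K.erase k) a b J := by
    refine Finset.image_congr fun j hj => ?_
    have : j ≠ k := (Finset.mem_erase.1 hj).1
    simp [this]
  rw [this, add_self2]

theorem Good.comap {W : Type} [DecidableEq W] {G : SimpleGraph V} {U : V → Prop}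
    {φ : Finset V → ZMod 2} {q : ℕ} (h : Good G U φ q) (G' : SimpleGraph W) (U' : W → Prop)
    (f : W → V) (hU : ∀ x, U' x → U (f x))
    (hA : ∀ x y, U' x → U' y → ¬ G'.Adj x y → ¬ G.Adj (f x) (f y)) :
    Good G' U' (fun s => if s.card = q then φ (s.image f) else 0) q := by
  refine ⟨fun s hs => ?_, fun t h1 h2 => ?_, fun ι _ I a b h1 h2 h3 h4 => ?_⟩
  · by_contra e
    simp [e] at hs
  · by_cases ht : t.card = q + 1
    · rw [← h.coc_idx t f ht (fun x hx => hU x (h1 x hx))
        fun x hx y hy => hA x y (h1 x hx) (h1 y hy) (h2 x hx y hy)]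
      refine Finset.sum_congr rfl fun v hv => ?_
      have := Finset.card_erase_add_one hv
      rw [if_pos (by omega)]
    · refine Finset.sum_eq_zero fun v hv => ?_
      have := Finset.card_erase_add_one hv
      rw [if_neg (by omega)]
  · rw [← h.xp_gen I (fun i => f (a i)) (fun i => f (b i)) h1
      (fun i hi => ⟨hU _ (h2 i hi).1, hU _ (h2 i hi).2⟩)
      fun i hi j hj e => ⟨hA _ _ (h2 i hi).1 (h2 j hj).1 (h3 i hi j hj e).1,
        hA _ _ (h2 i hi).1 (h2 j hj).2 (h3 i hi j hj e).2.1,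
        hA _ _ (h2 i hi).2 (h2 j hj).2 (h3 i hi j hj e).2.2⟩]
    refine Finset.sum_congr rfl fun J _ => ?_
    rw [if_pos ((h3.card_tr h4 J).trans h1)]
    congr 1
    unfold tr
    rw [Finset.image_image]
    refine Finset.image_congr fun i _ => ?_
    by_cases hJ : i ∈ J <;> simp [hJ]

theorem Good.link1 {G : SimpleGraph V} {U : V → Prop} {φ : Finset V → ZMod 2} {q : ℕ} (A : V)
    (h : Good G (fun x => U x ∧ x ≠ A ∧ ¬ G.Adj x A) φ q) :
    Good G U (fun s => if A ∈ s then φ (s.erase A) else 0) (q + 1) := by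
  refine ⟨fun s hs => ?_, fun t h1 h2 => ?_, fun ι _ I a b h1 h2 h3 h4 => ?_⟩
  · by_cases e : A ∈ s
    · simp only [e, if_true] at hs
      rw [← h.deg _ hs, Finset.card_erase_add_one e]
    · simp [e] at hs
  · by_cases hA : A ∈ t
    · rw [← Finset.add_sum_erase t _ hA, if_neg (Finset.notMem_erase _ _), zero_add,
        ← h.coc (t.erase A)
          (fun x hx => ⟨h1 x (Finset.mem_of_mem_erase hx), (Finset.mem_erase.1 hx).1,
            h2 x (Finset.mem_of_mem_erase hx) A hA⟩)
          fun x hx y hy => h2 x (Finset.mem_of_mem_erase hx) y (Finset.mem_of_mem_erase hy)]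
      refine Finset.sum_congr rfl fun v hv => ?_
      rw [if_pos (Finset.mem_erase.2 ⟨(Finset.mem_erase.1 hv).1.symm, hA⟩), Finset.erase_right_comm]
    · exact Finset.sum_eq_zero fun v _ => if_neg fun e => hA (Finset.mem_of_mem_erase e)
  · by_cases hA : ∃ i ∈ I, A = a i ∨ A = b i
    · obtain ⟨i, hi, hA⟩ := hA
      obtain ⟨K, hK, rfl⟩ : ∃ K, i ∉ K ∧ I = insert i K :=
        ⟨I.erase i, Finset.notMem_erase _ _, (Finset.insert_erase hi).symm⟩
      rw [Finset.card_insert_of_notMem hK] at h1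
      rw [sum_tr_insert hK (fun s => if A ∈ s then φ (s.erase A) else 0)]
      refine Eq.trans ?_ (h.xp ι K a b (by omega) ?_ (h3.mono (Finset.subset_insert _ _))
        fun j hj => h4 j (Finset.mem_insert_of_mem hj))
      · refine Finset.sum_congr rfl fun J _ => ?_
        obtain ⟨h5, h6⟩ := h3.not_mem_tr hK h4 J
        have h7 := (h4 i hi).ne
        rcases hA with rfl | rfl
        · simp [h5, h7]
        · simp [h6, h7.symm]
      · intro j hj
        have hj' := Finset.mem_insert_of_mem (b := i) hj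
        have hne : j ≠ i := fun e => hK (e ▸ hj)
        obtain ⟨n1, n2, n3, n4⟩ := h3.ne h4 hj' hi hne
        obtain ⟨m1, m2, m3⟩ := h3 j hj' i hi hne
        obtain ⟨-, m4, -⟩ := h3 i hi j hj' hne.symm
        rcases hA with rfl | rfl
        · exact ⟨⟨(h2 j hj').1, n1, m1⟩, (h2 j hj').2, n3, fun e => m4 e.symm⟩
        · exact ⟨⟨(h2 j hj').1, n2, m2⟩, (h2 j hj').2, n4, m3⟩
    · refine Finset.sum_eq_zero fun J _ => if_neg fun e => hA ?_
      obtain ⟨i, hi, h'⟩ := mem_tr e
      exact ⟨i, hi, by tauto⟩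

theorem Good.link {G : SimpleGraph V} (σ : Finset V) :
    ∀ {U : V → Prop} {φ : Finset V → ZMod 2} {q : ℕ},
      Good G (fun x => U x ∧ x ∉ σ ∧ ∀ A ∈ σ, ¬ G.Adj x A) φ q →
      Good G U (fun s => if σ ⊆ s then φ (s \ σ) else 0) (q + σ.card) := by
  induction σ using Finset.induction_on with
  | empty =>
    intro U φ q h
    simpa using h.mono (U' := U) fun x hx => ⟨hx, by simp, by simp⟩
  | insert A σ hA ih =>
    intro U φ q h
    have h1 : Good G (fun x => (U x ∧ x ∉ σ ∧ ∀ B ∈ σ, ¬ G.Adj x B) ∧ x ≠ A ∧ ¬ G.Adj x A) φ q :=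
      h.mono fun x hx => ⟨hx.1.1, by simp [hx.1.2.1, hx.2.1], by
        intro B hB
        rcases Finset.mem_insert.1 hB with rfl | hB
        · exact hx.2.2
        · exact hx.1.2.2 B hB⟩
    have h2 := ih (h1.link1 A)
    rw [Finset.card_insert_of_notMem hA, show q + (σ.card + 1) = q + 1 + σ.card by ring]
    have e : (fun s => if insert A σ ⊆ s then φ (s \ insert A σ) else 0) =
        fun s => if σ ⊆ s then (if A ∈ s \ σ then φ ((s \ σ).erase A) else 0) else 0 := by
      funext s
      rw [Finset.sdiff_insert]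
      by_cases h3 : σ ⊆ s <;> by_cases h4 : A ∈ s <;> simp [h3, h4, hA, Finset.insert_subset_iff]
    rw [e]
    exact h2

end Pool.Agent.Lib.MP_d1f823_co
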