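import Pool.Agent.Lib.MP_d1f823_co.Final

/-! The lifting step from `n`-sets to `(n+1)`-sets: double the points of a cover `R`. -/

namespace Pool.Agent.Lib.MP_d1f823_co

open Finset

/-- The disjointness graph on finite sets of natural numbers. -/
def disjG : SimpleGraph (Finset ℕ) where
  Adj A B := A ≠ B ∧ Disjoint A B
  symm := ⟨fun _ _ h => ⟨h.1.symm, h.2.symm⟩⟩
  loopless := ⟨fun _ h => h.1 rfl⟩

theorem not_adj_of_mem {A B : Finset ℕ} {p : ℕ} (h1 : p ∈ A) (h2 : p ∈ B) : ¬ disjG.Adj A B :=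
  fun h => Finset.disjoint_left.1 h.2 h1 h2

theorem not_adj_image (f : ℕ → ℕ) (A B : Finset ℕ) (h : ¬ disjG.Adj A B) :
    ¬ disjG.Adj (A.image f) (B.image f) := by
  intro e
  exact h ⟨fun e' => e.1 (by rw [e']), Finset.disjoint_left.2 fun p h1 h2 =>
    Finset.disjoint_left.1 e.2 (Finset.mem_image_of_mem f h1) (Finset.mem_image_of_mem f h2)⟩

def QV (n N : ℕ) (R R₂ : Finset ℕ) (T : Finset ℕ) : Prop :=
  T.card = n ∧ T ⊆ range N ∧ (∃ p ∈ T, p ∈ R) ∧ ∃ p ∈ T, p ∈ R₂

def VV (n : ℕ) (R : Finset ℕ) (i : ℕ) (x : Finset ℕ) : Prop :=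
  x.card ≤ n ∨ (Odd n ∧ ∃ w, w ∉ R ∧ x = insert w (R.erase i))

def Inv (n N q : ℕ) : Prop :=
  ∃ (φ : Finset (Finset ℕ) → ZMod 2) (R R₂ : Finset ℕ) (j i : ℕ),
    R ⊆ range N ∧ R₂ ⊆ range N ∧ R.card = n + 1 ∧ R₂.card = n + 1 ∧ R ∩ R₂ = {j} ∧ i ∈ R ∧
      Good disjG (VV n R i) φ q ∧ HasCyc (Supp disjG (QV n N R R₂) q) φ

theorem exists_copy (N : ℕ) (R : Finset ℕ) :
    ∃ c π : ℕ → ℕ, (∀ k, N ≤ c k) ∧ (∀ k ∈ R, c k < N + R.card) ∧ (∀ k ∈ R, π (c k) = k) ∧
      (∀ p < N, π p = p) ∧ ∀ p, π p ∈ R → p = π p ∨ p = c (π p) := by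
  classical
  let c : ℕ → ℕ := fun k => N + (R.filter fun u => u < k).card
  have hlt : ∀ k ∈ R, ∀ k', k < k' → c k < c k' := by
    intro k hk k' h
    refine Nat.add_lt_add_left (Finset.card_lt_card ⟨fun u hu => ?_, fun e => ?_⟩) N
    · simp only [Finset.mem_filter] at hu ⊢
      exact ⟨hu.1, hu.2.trans h⟩
    · have := e (Finset.mem_filter.2 ⟨hk, h⟩)
      simp at this
  have hinj : ∀ k ∈ R, ∀ k' ∈ R, c k = c k' → k = k' := by
    intro k hk k' hk' e
    rcases lt_trichotomy k k' with h | h | h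
    · exact absurd e (hlt k hk k' h).ne
    · exact h
    · exact absurd e (hlt k' hk' k h).ne'
  refine ⟨c, fun p => if h : ∃ k ∈ R, c k = p then h.choose else p, fun k => Nat.le_add_right _ _,
    fun k hk => ?_, fun k hk => ?_, fun p hp => ?_, fun p hp => ?_⟩
  · refine Nat.add_lt_add_left (Finset.card_lt_card ⟨Finset.filter_subset _ _, fun e => ?_⟩) N
    have := e hk
    simp at this
  · have h : ∃ k' ∈ R, c k' = c k := ⟨k, hk, rfl⟩
    beta_reduce
    rw [dif_pos h]
    exact hinj _ h.choose_spec.1 _ hk h.choose_spec.2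
  · refine dif_neg ?_
    rintro ⟨k, -, e⟩
    have : N ≤ c k := Nat.le_add_right _ _
    omega
  · by_cases h : ∃ k ∈ R, c k = p
    · simp only [dif_pos h]
      exact Or.inr h.choose_spec.2.symm
    · simp only [dif_neg h]
      exact Or.inl trivial

section Words

variable {N : ℕ} {R D : Finset ℕ} {c π : ℕ → ℕ}

/-- The transversal of the pairs `k, c k` choosing `c k` exactly for `k ∈ J`. -/
def word (R : Finset ℕ) (c : ℕ → ℕ) (J : Finset ℕ) : Finset ℕ :=
  R.image fun k => if k ∈ J then c k else k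

theorem mem_word {J : Finset ℕ} {p : ℕ} :
    p ∈ word R c J ↔ ∃ k ∈ R, (k ∈ J ∧ p = c k) ∨ (k ∉ J ∧ p = k) := by
  unfold word
  rw [Finset.mem_image]
  constructor
  · rintro ⟨k, hk, rfl⟩
    refine ⟨k, hk, ?_⟩
    by_cases h : k ∈ J <;> simp [h]
  · rintro ⟨k, hk, ⟨h, rfl⟩ | ⟨h, rfl⟩⟩
    · exact ⟨k, hk, if_pos h⟩
    · exact ⟨p, hk, if_neg h⟩

theorem word_hit {J x : Finset ℕ} {k : ℕ} (hk : k ∈ R) (h1 : k ∈ x) (h2 : c k ∈ x) :
    ∃ p ∈ x, p ∈ word R c J := by
  by_cases h : k ∈ J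
  · exact ⟨c k, h2, mem_word.2 ⟨k, hk, Or.inl ⟨h, rfl⟩⟩⟩
  · exact ⟨k, h1, mem_word.2 ⟨k, hk, Or.inr ⟨h, rfl⟩⟩⟩

theorem word_meet {J J' : Finset ℕ} (hJ' : J' ⊆ R) (h : J' ≠ R \ J) :
    ¬ disjG.Adj (word R c J) (word R c J') := by
  by_contra e
  refine h (Finset.ext fun k => ?_)
  rw [Finset.mem_sdiff]
  constructor
  · intro h1
    exact ⟨hJ' h1, fun h2 => not_adj_of_mem (mem_word.2 ⟨k, hJ' h1, Or.inl ⟨h2, rfl⟩⟩)
      (mem_word.2 ⟨k, hJ' h1, Or.inl ⟨h1, rfl⟩⟩) e⟩
  · rintro ⟨h1, h2⟩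
    by_contra h3
    exact not_adj_of_mem (mem_word.2 ⟨k, h1, Or.inr ⟨h2, rfl⟩⟩)
      (mem_word.2 ⟨k, h1, Or.inr ⟨h3, rfl⟩⟩) e

theorem word_card (hR : R ⊆ range N) (h3 : ∀ k ∈ R, π (c k) = k) (h4 : ∀ p < N, π p = p)
    (J : Finset ℕ) : (word R c J).card = R.card := by
  refine Finset.card_image_of_injOn fun k hk k' hk' e => ?_
  have e' := congrArg π e
  have m1 := h4 k (Finset.mem_range.1 (hR hk))
  have m2 := h4 k' (Finset.mem_range.1 (hR hk'))
  have m3 := h3 k hk
  have m4 := h3 k' hk'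
  split_ifs at e' <;> omega

theorem word_disj (hR : R ⊆ range N) (h1 : ∀ k, N ≤ c k) (h3 : ∀ k ∈ R, π (c k) = k)
    (J : Finset ℕ) : Disjoint (word R c J) (word R c (R \ J)) := by
  rw [Finset.disjoint_left]
  intro p m1 m2
  obtain ⟨k, hk, n1⟩ := mem_word.1 m1
  obtain ⟨k', hk', n2⟩ := mem_word.1 m2
  have a1 := Finset.mem_range.1 (hR hk)
  have a2 := Finset.mem_range.1 (hR hk')
  have a3 := h1 k
  have a4 := h1 k'
  rw [Finset.mem_sdiff] at n2
  rcases n1 with ⟨r1, e1⟩ | ⟨r1, e1⟩ <;> rcases n2 with ⟨r2, e⟩ | ⟨r2, e⟩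
  · have : k = k' := by rw [← h3 k hk, ← e1, e, h3 k' hk']
    exact r2.2 (this ▸ r1)
  · omega
  · omega
  · exact r2 ⟨hk', e ▸ e1 ▸ r1⟩

theorem parity_compl (hD : D ⊆ R) (hodd : Odd D.card) (J : Finset ℕ) :
    Even (J ∩ D).card ↔ ¬ Even ((R \ J) ∩ D).card := by
  have e : (R \ J) ∩ D = D \ J := by
    ext k
    simp only [Finset.mem_inter, Finset.mem_sdiff]
    exact ⟨fun h => ⟨h.2, h.1.2⟩, fun h => ⟨⟨hD h.1, h.2⟩, h.1⟩⟩
  have := Finset.card_sdiff_add_card_inter D J
  rw [e, Finset.inter_comm]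
  rw [Nat.odd_iff] at hodd
  rw [Nat.even_iff, Nat.even_iff]
  omega

theorem avoid (hD : D ⊆ R) (x : Finset ℕ) (h0 : ∀ k ∈ R, ¬ (k ∈ x ∧ c k ∈ x)) {d : ℕ}
    (hd : d ∈ D) (h1 : d ∉ x) (h2 : c d ∉ x) :
    ∃ J ⊆ R, Even (J ∩ D).card ∧ Disjoint x (word R c J) := by
  have key : ∀ J : Finset ℕ, (∀ k ∈ R, k ≠ d → (k ∈ J ↔ k ∈ x)) → Disjoint x (word R c J) := by
    intro J hJ
    rw [Finset.disjoint_left]
    intro p m1 m2
    obtain ⟨k, hk, ⟨m3, rfl⟩ | ⟨m3, rfl⟩⟩ := mem_word.1 m2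
    · by_cases e : k = d
      · exact h2 (e ▸ m1)
      · exact h0 k hk ⟨(hJ k hk e).1 m3, m1⟩
    · by_cases e : p = d
      · exact h1 (e ▸ m1)
      · exact m3 ((hJ p hk e).2 m1)
  by_cases h : Even ((R ∩ x) ∩ D).card
  · exact ⟨R ∩ x, Finset.inter_subset_left, h, key _ fun k hk _ => by simp [hk]⟩
  · refine ⟨insert d (R ∩ x), Finset.insert_subset (hD hd) Finset.inter_subset_left, ?_,
      key _ fun k hk e => by simp [hk, e]⟩
    rw [Finset.insert_inter_of_mem hd, Finset.card_insert_of_notMem (by simp [h1]),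
      Nat.even_add_one]
    exact h

end Words

theorem Inv.step {n N q : ℕ} (hn : 3 ≤ n) (h : Inv n N q) :
    ∃ q', Inv (n + 1) (N + (n + 1)) q' := by
  classical
  obtain ⟨φ, R, R₂, j, i, hR, hR₂, cR, cR₂, hj, hi, hG, hC⟩ := h
  obtain ⟨c, π, h1, h2, h3, h4, h5⟩ := exists_copy N R
  have hlt : ∀ k ∈ R, k < N := fun k hk => Finset.mem_range.1 (hR hk)
  have hlt₂ : ∀ k ∈ R₂, k < N := fun k hk => Finset.mem_range.1 (hR₂ hk)
  have hjj : ∀ k, k ∈ R → k ∈ R₂ → k = j := fun k m1 m2 =>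
    Finset.mem_singleton.1 (hj ▸ Finset.mem_inter.2 ⟨m1, m2⟩)
  obtain ⟨hjR, hjR₂⟩ : j ∈ R ∧ j ∈ R₂ := Finset.mem_inter.1 (hj ▸ Finset.mem_singleton_self j)
  obtain ⟨l, hl, hlj⟩ : ∃ l ∈ R, l ≠ j := Finset.exists_mem_ne (by omega) j
  have hl₂ : l ∉ R₂ := fun e => hlj (hjj l hl e)
  obtain ⟨D, hD, hodd, hD3, hDR⟩ : ∃ D ⊆ R, Odd D.card ∧ 3 ≤ D.card ∧
      (D = R ∨ (Odd n ∧ D = R.erase i)) := by
    rcases Nat.even_or_odd n with e | e
    · exact ⟨R, Finset.Subset.refl _, cR ▸ e.add_one, by omega, Or.inl rfl⟩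
    · have := Finset.card_erase_add_one hi
      have e2 : (R.erase i).card = n := by omega
      exact ⟨R.erase i, Finset.erase_subset _ _, e2 ▸ e, by omega, Or.inr ⟨e, rfl⟩⟩
  let I : Finset (Finset ℕ) := R.powerset.filter fun J => Even (J ∩ D).card
  have hI : ∀ J, J ∈ I ↔ J ⊆ R ∧ Even (J ∩ D).card := fun J => by simp [I]
  let a : Finset ℕ → Finset ℕ := word R c
  let b : Finset ℕ → Finset ℕ := fun J => word R c (R \ J)
  have hCr : Cross disjG I a b := by
    intro J hJ J' hJ' hne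
    obtain ⟨m1, m2⟩ := (hI J).1 hJ
    obtain ⟨m3, m4⟩ := (hI J').1 hJ'
    refine ⟨word_meet m3 fun e => ?_, word_meet Finset.sdiff_subset fun e => ?_,
      word_meet Finset.sdiff_subset fun e => ?_⟩
    · exact (parity_compl hD hodd J).1 m2 (e ▸ m4)
    · exact hne (by rw [← Finset.sdiff_sdiff_eq_self m1, ← e, Finset.sdiff_sdiff_eq_self m3])
    · rw [Finset.sdiff_sdiff_eq_self m1] at e
      exact (parity_compl hD hodd J').1 m4 (e ▸ m2)
  have hab : ∀ J ∈ I, disjG.Adj (a J) (b J) := by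
    intro J _
    have := word_disj hR h1 h3 J
    refine ⟨fun e => ?_, this⟩
    have e' : word R c J = word R c (R \ J) := e
    rw [← e', disjoint_self] at this
    have h0 := word_card hR h3 h4 J
    rw [this, cR] at h0
    simp at h0
  let σ : Finset (Finset ℕ) := I.image a
  have cσ : σ.card = I.card := by
    refine Finset.card_image_of_injOn fun J hJ J' hJ' e => ?_
    by_contra hne
    exact (hCr.ne hab hJ hJ' hne).1 e
  let R' : Finset ℕ := insert (c j) R₂
  let R₂' : Finset ℕ := insert l (R.image c)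
  have hcj : c j ∉ R₂ := fun e => by
    have := hlt₂ _ e
    have := h1 j
    omega
  have hU : ∀ x, (VV (n + 1) R' j x ∧ x ∉ σ ∧ ∀ A ∈ σ, ¬ disjG.Adj x A) →
      VV n R i (x.image π) := by
    rintro x ⟨hx, hxσ, hxA⟩
    have hmeet : ∀ J ⊆ R, Even (J ∩ D).card → ¬ Disjoint x (word R c J) := by
      intro J m1 m2 e
      have hm : a J ∈ σ := Finset.mem_image_of_mem a ((hI J).2 ⟨m1, m2⟩)
      exact hxA _ hm ⟨fun e' => hxσ (e' ▸ hm), e⟩
    have htouch : (∀ k ∈ R, ¬ (k ∈ x ∧ c k ∈ x)) → ∀ d ∈ D, d ∈ x ∨ c d ∈ x := by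
      intro h0 d hd
      by_contra e
      push Not at e
      obtain ⟨J, m1, m2, m3⟩ := avoid hD x h0 hd e.1 e.2
      exact hmeet J m1 m2 m3
    rcases hx with hx | ⟨-, w, hw, rfl⟩
    · by_cases hb : ∃ k ∈ R, k ∈ x ∧ c k ∈ x
      · obtain ⟨k, hk, m1, m2⟩ := hb
        left
        have e : x.image π ⊆ (x.erase (c k)).image π := by
          intro p hp
          obtain ⟨u, hu, rfl⟩ := Finset.mem_image.1 hp
          by_cases e : u = c k
          · refine Finset.mem_image.2 ⟨k, Finset.mem_erase.2 ⟨?_, m1⟩, ?_⟩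
            · have := hlt k hk
              have := h1 k
              omega
            · rw [e, h3 k hk, h4 k (hlt k hk)]
          · exact Finset.mem_image_of_mem π (Finset.mem_erase.2 ⟨e, hu⟩)
        have := Finset.card_le_card e
        have := Finset.card_image_le (s := x.erase (c k)) (f := π)
        have := Finset.card_erase_add_one m2
        omega
      · have h0 : ∀ k ∈ R, ¬ (k ∈ x ∧ c k ∈ x) := fun k hk e => hb ⟨k, hk, e⟩
        have hDx : D ⊆ x.image π := by
          intro d hd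
          rcases htouch h0 d hd with e | e
          · exact Finset.mem_image.2 ⟨d, e, h4 d (hlt d (hD hd))⟩
          · exact Finset.mem_image.2 ⟨c d, e, h3 d (hD hd)⟩
        by_cases hc : (x.image π).card ≤ n
        · exact Or.inl hc
        have hle := Finset.card_image_le (s := x) (f := π)
        by_cases hRx : R ⊆ x.image π
        · exfalso
          have e : R = x.image π := Finset.eq_of_subset_of_card_le hRx (by omega)
          have hsub : x ⊆ word R c (R.filter fun k => c k ∈ x) := by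
            intro p hp
            have hπ : π p ∈ R := e ▸ Finset.mem_image_of_mem π hp
            refine mem_word.2 ⟨π p, hπ, ?_⟩
            rcases h5 p hπ with e1 | e1
            · refine Or.inr ⟨fun e2 => ?_, e1⟩
              exact h0 _ hπ ⟨e1 ▸ hp, (Finset.mem_filter.1 e2).2⟩
            · exact Or.inl ⟨Finset.mem_filter.2 ⟨hπ, e1 ▸ hp⟩, e1⟩
          by_cases hev : Even ((R.filter fun k => c k ∈ x) ∩ D).card
          · refine hxσ (Finset.mem_image.2 ⟨_, (hI _).2 ⟨Finset.filter_subset _ _, hev⟩, ?_⟩)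
            refine (Finset.eq_of_subset_of_card_le hsub ?_).symm
            rw [word_card hR h3 h4]
            omega
          · refine hmeet (R \ R.filter fun k => c k ∈ x) Finset.sdiff_subset ?_
              ((word_disj hR h1 h3 _).mono_left hsub)
            by_contra e2
            exact hev ((parity_compl hD hodd _).2 e2)
        · rcases hDR with e | ⟨hn', e⟩
          · exact (hRx (e ▸ hDx)).elim
          · have := Finset.card_erase_add_one hi
            obtain ⟨w, hw, e2⟩ := Finset.exists_eq_insert_iff.2 ⟨hDx, by rw [e]; omega⟩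
            refine Or.inr ⟨hn', w, fun hwR => ?_, by rw [← e2, e]⟩
            have : w = i := by
              by_contra e3
              exact hw (e ▸ Finset.mem_erase.2 ⟨e3, hwR⟩)
            refine hRx ?_
            rw [← e2, e, this, Finset.insert_erase hi]
    · exfalso
      have hmem : ∀ p, p ∈ insert w (R'.erase j) → p = w ∨ p = c j ∨ (p ∈ R₂ ∧ p ≠ j) := by
        intro p hp
        simp only [R', Finset.mem_insert, Finset.mem_erase] at hp
        tauto
      have hA : ∀ k ∈ R, k ∈ insert w (R'.erase j) → k = w := by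
        intro k hk hp
        rcases hmem k hp with e | e | e
        · exact e
        · have := hlt k hk
          have := h1 j
          omega
        · exact (e.2 (hjj k hk e.1)).elim
      have hB : ∀ k ∈ R, c k ∈ insert w (R'.erase j) → c k = w ∨ k = j := by
        intro k hk hp
        rcases hmem _ hp with e | e | e
        · exact Or.inl e
        · exact Or.inr (by rw [← h3 k hk, e, h3 j hjR])
        · have := hlt₂ _ e.1
          have := h1 k
          omega
      obtain ⟨d, hd, hd'⟩ := Finset.exists_mem_notMem_of_card_lt_card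
        (s := ({j, π w} : Finset ℕ)) (t := D) (by
          have := Finset.card_le_two (a := j) (b := π w)
          omega)
      simp only [Finset.mem_insert, Finset.mem_singleton, not_or] at hd'
      rcases htouch (fun k hk e => by
        have m1 := hA k hk e.1
        rcases hB k hk e.2 with m2 | m2
        · have := hlt k hk
          have := h1 k
          omega
        · exact hw (Finset.mem_insert_of_mem (m1 ▸ m2 ▸ hjR₂))) d hd with e | e
      · exact hd'.2 (by rw [← hA d (hD hd) e, h4 d (hlt d (hD hd))])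
      · rcases hB d (hD hd) e with m2 | m2
        · exact hd'.2 (by rw [← m2, h3 d (hD hd)])
        · exact hd'.1 m2
  have G1 := (hG.comap disjG _ (fun x => x.image π) hU
    fun x y _ _ e => not_adj_image π x y e).link σ
  let θ : Finset ℕ → Finset ℕ := fun T =>
    if h : ∃ p ∈ T, p ∈ R then insert (c h.choose) T else T
  have hθ : ∀ T, QV n N R R₂ T → ∃ e ∈ T, e ∈ R ∧ θ T = insert (c e) T := by
    intro T hT
    exact ⟨_, hT.2.2.1.choose_spec.1, hT.2.2.1.choose_spec.2, dif_pos hT.2.2.1⟩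
  have hπθ : ∀ T, QV n N R R₂ T → (θ T).image π = T := by
    intro T hT
    obtain ⟨e, m1, m2, m3⟩ := hθ T hT
    rw [m3, Finset.image_insert, h3 e m2,
      Finset.image_congr (g := id) fun p hp => h4 p (Finset.mem_range.1 (hT.2.1 hp)),
      Finset.image_id, Finset.insert_eq_of_mem m1]
  have C1 : HasCyc (Supp disjG (fun x => ∃ T, QV n N R R₂ T ∧ x = θ T) q)
      (fun s => if s.card = q then φ (s.image fun x => x.image π) else 0) := by
    refine hC.map θ _ _ fun s hs => ?_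
    have hinj : Set.InjOn θ s := fun T hT T' hT' e => by
      rw [← hπθ T (hs.2.1 T hT), e, hπθ T' (hs.2.1 T' hT')]
    have hcard : (s.image θ).card = q := (Finset.card_image_of_injOn hinj).trans hs.1
    refine ⟨hinj, ⟨hcard, fun x hx => ?_, fun x hx y hy => ?_⟩, ?_⟩
    · obtain ⟨T, hT, rfl⟩ := Finset.mem_image.1 hx
      exact ⟨T, hs.2.1 T hT, rfl⟩
    · obtain ⟨T, hT, rfl⟩ := Finset.mem_image.1 hx
      obtain ⟨T', hT', rfl⟩ := Finset.mem_image.1 hy
      obtain ⟨e, -, -, m3⟩ := hθ T (hs.2.1 T hT)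
      obtain ⟨e', -, -, m3'⟩ := hθ T' (hs.2.1 T' hT')
      intro hA
      refine hs.2.2 T hT T' hT' ⟨fun e2 => hA.1 (by rw [e2]), hA.2.mono ?_ ?_⟩
      · rw [m3]
        exact Finset.subset_insert _ _
      · rw [m3']
        exact Finset.subset_insert _ _
    · rw [if_pos hcard, Finset.image_image,
        Finset.image_congr (f := (fun x : Finset ℕ => x.image π) ∘ θ) (g := id)
          fun T hT => hπθ T (hs.2.1 T hT), Finset.image_id]
  have C2 := C1.susp a b I hCr hab (by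
    rintro J - x ⟨T, hT, rfl⟩
    obtain ⟨e, m1, m2, m3⟩ := hθ T hT
    have m4 : e ∈ θ T := m3 ▸ Finset.mem_insert_of_mem m1
    have m5 : c e ∈ θ T := m3 ▸ Finset.mem_insert_self _ _
    constructor
    · obtain ⟨p, p1, p2⟩ := word_hit (J := J) m2 m4 m5
      exact not_adj_of_mem p1 p2
    · obtain ⟨p, p1, p2⟩ := word_hit (J := R \ J) m2 m4 m5
      exact not_adj_of_mem p1 p2)
  have hw : ∀ J, QV (n + 1) (N + (n + 1)) R' R₂' (word R c J) := by
    intro J
    refine ⟨(word_card hR h3 h4 J).trans cR, fun p hp => ?_, ?_, ?_⟩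
    · obtain ⟨k, hk, ⟨-, rfl⟩ | ⟨-, rfl⟩⟩ := mem_word.1 hp
      · exact Finset.mem_range.2 (cR ▸ h2 k hk)
      · exact Finset.mem_range.2 (by have := hlt p hk; omega)
    · obtain ⟨p, p1, p2⟩ := word_hit (J := J) (x := R') hjR (Finset.mem_insert_of_mem hjR₂)
        (Finset.mem_insert_self _ _)
      exact ⟨p, p2, p1⟩
    · obtain ⟨p, p1, p2⟩ := word_hit (J := J) (x := R₂') hl (Finset.mem_insert_self _ _)
        (Finset.mem_insert_of_mem (Finset.mem_image_of_mem c hl))
      exact ⟨p, p2, p1⟩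
  have hlc : l ∉ R.image c := fun e => by
    obtain ⟨k, -, e⟩ := Finset.mem_image.1 e
    have := hlt l hl
    have := h1 k
    omega
  refine ⟨q + σ.card, _, R', R₂', c j, j, ?_, ?_, ?_, ?_, ?_, Finset.mem_insert_of_mem hjR₂, G1,
    C2.mono fun s hs => ⟨⟨cσ ▸ hs.1, fun x hx => ?_, hs.2.2⟩, rfl⟩⟩
  · intro p hp
    rcases Finset.mem_insert.1 hp with rfl | hp
    · exact Finset.mem_range.2 (cR ▸ h2 j hjR)
    · exact Finset.mem_range.2 (by have := hlt₂ p hp; omega)
  · intro p hp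
    rcases Finset.mem_insert.1 hp with rfl | hp
    · exact Finset.mem_range.2 (by have := hlt p hl; omega)
    · obtain ⟨k, hk, rfl⟩ := Finset.mem_image.1 hp
      exact Finset.mem_range.2 (cR ▸ h2 k hk)
  · rw [Finset.card_insert_of_notMem hcj, cR₂]
  · rw [Finset.card_insert_of_notMem hlc, Finset.card_image_of_injOn fun k hk k' hk' e => by
      rw [← h3 k hk, e, h3 k' hk'], cR]
  · ext p
    simp only [R', R₂', Finset.mem_inter, Finset.mem_insert, Finset.mem_singleton,
      Finset.mem_image]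
    constructor
    · rintro ⟨e | e, e' | ⟨k, -, e'⟩⟩
      · exact e
      · exact e
      · exact (hl₂ (e' ▸ e)).elim
      · have := hlt₂ p e
        have := h1 k
        omega
    · rintro rfl
      exact ⟨Or.inl rfl, Or.inr ⟨j, hjR, rfl⟩⟩
  · rcases hs.2.1 x hx with ⟨T, hT, rfl⟩ | ⟨J, -, rfl | rfl⟩
    · obtain ⟨e, m1, m2, m3⟩ := hθ T hT
      have m4 : c e ∉ T := fun e' => by
        have := Finset.mem_range.1 (hT.2.1 e')
        have := h1 e
        omega
      rw [m3]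
      refine ⟨by rw [Finset.card_insert_of_notMem m4, hT.1], fun p hp => ?_, ?_, ?_⟩
      · rcases Finset.mem_insert.1 hp with rfl | hp
        · exact Finset.mem_range.2 (cR ▸ h2 e m2)
        · exact Finset.mem_range.2 (by have := Finset.mem_range.1 (hT.2.1 hp); omega)
      · obtain ⟨p, p1, p2⟩ := hT.2.2.2
        exact ⟨p, Finset.mem_insert_of_mem p1, Finset.mem_insert_of_mem p2⟩
      · exact ⟨c e, Finset.mem_insert_self _ _,
          Finset.mem_insert_of_mem (Finset.mem_image_of_mem c m2)⟩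
    · exact hw _
    · exact hw _

end Pool.Agent.Lib.MP_d1f823_co
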